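import Mathlib

/-!
# Estimates for the parameters
-/

namespace Pool.Agent.J4H24.PR

lemma exp_quarter {x : ℝ} (hx : x ≤ -4) : Real.exp x ≤ 1 / 5 := by
  have h3 : Real.exp x ≤ Real.exp (-4) := Real.exp_le_exp.mpr hx
  have h4 : (5 : ℝ) ≤ Real.exp 4 := by
    have := Real.add_one_le_exp (4 : ℝ)
    linarith
  rw [Real.exp_neg] at h3
  refine h3.trans ?_
  rw [inv_eq_one_div]
  exact one_div_le_one_div_of_le (by norm_num) h4

lemma two_pow_le_exp (n : ℕ) : (2 : ℝ) ^ n ≤ Real.exp n := by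
  have := Real.add_one_le_exp (1 : ℝ)
  calc (2 : ℝ) ^ n ≤ (Real.exp 1) ^ n := pow_le_pow_left₀ (by norm_num) (by linarith) n
    _ = Real.exp n := by rw [← Real.exp_nat_mul, mul_one]

lemma arith_e1 {n : ℕ} (hn : 1 ≤ n) {m p : ℝ} (hp : 0 < p) (hm : m = 12 * p * n ^ 2) :
    (2 : ℝ) ^ n * n * Real.exp (-(m * ((1 / (n : ℝ)) * (1 / p)))) ≤ 1 / 5 := by
  have hnR : (1 : ℝ) ≤ n := by exact_mod_cast hn
  have h3 : m * ((1 / (n : ℝ)) * (1 / p)) = 12 * n := by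
    rw [hm]
    field_simp
  rw [h3]
  have hexpn : (n : ℝ) + 1 ≤ Real.exp n := Real.add_one_le_exp _
  calc (2 : ℝ) ^ n * n * Real.exp (-(12 * n)) ≤ Real.exp n * Real.exp n *
        Real.exp (-(12 * n)) := by
          refine mul_le_mul_of_nonneg_right ?_ (Real.exp_pos _).le
          exact mul_le_mul (two_pow_le_exp n) (by linarith) (by positivity) (Real.exp_pos _).le
    _ = Real.exp (-(10 * n)) := by
        rw [← Real.exp_add, ← Real.exp_add]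
        congr 1
        ring
    _ ≤ 1 / 5 := exp_quarter (by linarith)

lemma arith_e2 {n : ℕ} (hn : 1 ≤ n) {m p : ℝ} (hp : 0 < p) (hm : m = 12 * p * n ^ 2) :
    (2 : ℝ) ^ n * 2 ^ n * Real.exp (-(m * (1 / p / 2))) ≤ 1 / 5 := by
  have hnR : (1 : ℝ) ≤ n := by exact_mod_cast hn
  have h3 : m * (1 / p / 2) = 6 * n ^ 2 := by
    rw [hm]
    field_simp
    norm_num
  rw [h3]
  calc (2 : ℝ) ^ n * 2 ^ n * Real.exp (-(6 * n ^ 2)) ≤ Real.exp n * Real.exp n *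
        Real.exp (-(6 * n ^ 2)) := by
          refine mul_le_mul_of_nonneg_right ?_ (Real.exp_pos _).le
          exact mul_le_mul (two_pow_le_exp n) (two_pow_le_exp n) (by positivity)
            (Real.exp_pos _).le
    _ = Real.exp (n + n + -(6 * n ^ 2)) := by
        rw [← Real.exp_add, ← Real.exp_add]
    _ ≤ 1 / 5 := exp_quarter (by nlinarith)

lemma arith_y {t n : ℝ} (ht : 0 < t) (hn : t ^ 20 ≤ n) :
    ((384 * t ^ 4) ^ 4 / n) ^ 64 ≤ ((384 / t) ^ 4) ^ 64 := by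
  have hn0 : 0 < n := lt_of_lt_of_le (by positivity) hn
  refine pow_le_pow_left₀ (by positivity) ?_ _
  rw [div_le_iff₀ hn0]
  have h5 : (384 / t) ^ 4 * t ^ 20 = (384 * t ^ 4) ^ 4 := by
    field_simp
  rw [← h5]
  exact mul_le_mul_of_nonneg_left hn (by positivity)

lemma arith_nn {t n : ℝ} (hn : 0 ≤ n) : 0 ≤ ((384 * t ^ 4) ^ 4 / n) ^ 64 :=
  pow_nonneg (div_nonneg (by positivity) hn) _

lemma alg1 (b t : ℝ) (ht : t ≠ 0) :
    b ^ 4 * ((b ^ 4 * b ^ 512 * ((b * t) ^ 20) ^ 2) * ((b ^ 9 / t) ^ 4) ^ 64) =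
      b ^ 2864 / t ^ 216 := by
  field_simp

lemma arith_my {t n p : ℝ} (hp : 0 < p) (hp1 : p ≤ 2 ^ 512) (ht : 2 ^ 20 ≤ t) (hn0 : 0 ≤ n)
    (hn : t ^ 20 ≤ n) (hn2 : n ≤ (2 * t) ^ 20) :
    10 * ((12 * p * n ^ 2) * ((384 * t ^ 4) ^ 4 / n) ^ 64) ≤ 1 := by
  have ht0 : 0 < t := lt_of_lt_of_le (by norm_num) ht
  have h1 := arith_y ht0 hn
  have hn' : 0 < n := lt_of_lt_of_le (by positivity) hn
  have hy0 : 0 ≤ ((384 * t ^ 4) ^ 4 / n) ^ 64 := pow_nonneg (by positivity) _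
  have h2 : n ^ 2 ≤ ((2 * t) ^ 20) ^ 2 := pow_le_pow_left₀ hn0 hn2 2
  obtain ⟨b, hb⟩ : ∃ b : ℝ, b = 2 := ⟨2, rfl⟩
  rw [← hb] at hp1 ht h2
  have hb0 : 0 < b := by rw [hb]; norm_num
  have h6 : 384 / t ≤ b ^ 9 / t := by
    refine div_le_div_of_nonneg_right ?_ ht0.le
    rw [hb]
    norm_num
  have h6' : (384 / t) ^ 4 ≤ (b ^ 9 / t) ^ 4 := by gcongr
  have h7 : ((384 / t) ^ 4) ^ 64 ≤ ((b ^ 9 / t) ^ 4) ^ 64 := by gcongr
  have h3 : 10 * ((12 * p * n ^ 2) * ((384 * t ^ 4) ^ 4 / n) ^ 64) ≤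
      b ^ 4 * ((b ^ 4 * b ^ 512 * ((b * t) ^ 20) ^ 2) * ((b ^ 9 / t) ^ 4) ^ 64) := by
    have hB : 0 < b ^ 512 := pow_pos hb0 _
    generalize b ^ 512 = B at hB hp1
    refine mul_le_mul (by rw [hb]; norm_num) ?_ (mul_nonneg (by positivity) hy0) (by positivity)
    refine mul_le_mul ?_ (h1.trans h7) hy0 (by positivity)
    refine mul_le_mul ?_ h2 (by positivity) (by positivity)
    exact mul_le_mul (by rw [hb]; norm_num) hp1 hp.le (by positivity)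
  refine h3.trans ?_
  rw [alg1 b t ht0.ne', div_le_one (by positivity)]
  refine le_trans ?_ (pow_le_pow_left₀ (by positivity) ht 216)
  rw [← pow_mul]
  exact pow_le_pow_right₀ (by rw [hb]; norm_num) (by norm_num)

lemma arith_res {t n p : ℝ} (hp : 0 < p) (hp1 : p ≤ 2 ^ 512) (ht : 2 ^ 20 ≤ t) (hn0 : 0 ≤ n)
    (hn2 : n ≤ (2 * t) ^ 20) :
    8 * (12 * p * n ^ 2 * (n * (1 / t) ^ 127)) ≤ 1 := by
  have ht0 : 0 < t := lt_of_lt_of_le (by norm_num) ht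
  have h2 : n ^ 3 ≤ ((2 * t) ^ 20) ^ 3 := pow_le_pow_left₀ hn0 hn2 3
  obtain ⟨b, hb⟩ : ∃ b : ℝ, b = 2 := ⟨2, rfl⟩
  rw [← hb] at hp1 ht h2
  have hb0 : 0 < b := by rw [hb]; norm_num
  have h3 : 8 * (12 * p * n ^ 2 * (n * (1 / t) ^ 127)) ≤
      b ^ 7 * b ^ 512 * ((b * t) ^ 20) ^ 3 * (1 / t) ^ 127 := by
    have h4 : 8 * (12 * p * n ^ 2 * (n * (1 / t) ^ 127)) = 96 * p * n ^ 3 * (1 / t) ^ 127 := by
      ring
    rw [h4]
    have hB : 0 < b ^ 512 := pow_pos hb0 _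
    generalize b ^ 512 = B at hB hp1
    refine mul_le_mul_of_nonneg_right ?_ (by positivity)
    refine mul_le_mul ?_ h2 (by positivity) (by positivity)
    exact mul_le_mul (by rw [hb]; norm_num) hp1 hp.le (by positivity)
  refine h3.trans ?_
  have h5 : b ^ 7 * b ^ 512 * ((b * t) ^ 20) ^ 3 * (1 / t) ^ 127 = b ^ 579 / t ^ 67 := by
    field_simp
  rw [h5, div_le_one (by positivity)]
  refine le_trans ?_ (pow_le_pow_left₀ (by positivity) ht 67)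
  rw [← pow_mul]
  exact pow_le_pow_right₀ (by rw [hb]; norm_num) (by norm_num)

lemma three_pow_le : (3 : ℝ) ^ 256 ≤ 2 ^ 512 := by
  have h : (3 : ℝ) ^ 256 ≤ 4 ^ 256 := pow_le_pow_left₀ (by norm_num) (by norm_num) _
  refine h.trans (le_of_eq ?_)
  have h4 : (4 : ℝ) = 2 ^ 2 := by norm_num
  rw [h4, ← pow_mul]

lemma arith_small {d n : ℝ} (hn : n ≠ 0) : n ^ 192 * (d / n) ^ 256 = (d ^ 4 / n) ^ 64 := by
  field_simp

lemma arith_final {n : ℕ} {t w l : ℝ} (hn : (n : ℝ) ≤ (2 * t) ^ 20) (ht : 2 ^ 41 ≤ t)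
    (hw : t ^ 4 / 4 ≤ w) (hlen : 1 / 2 ≤ l * Real.exp (-(w / (2 * t)))) (hl : 0 ≤ l) :
    (2 : ℝ) ^ ((n : ℝ) ^ ((1 : ℝ) / 7)) ≤ l := by
  have ht0 : 0 < t := lt_of_lt_of_le (by norm_num) ht
  obtain ⟨z, hz⟩ : ∃ z : ℝ, z = t ^ 3 / 8 := ⟨_, rfl⟩
  have hwz : z ≤ w / (2 * t) := by
    rw [le_div_iff₀ (by positivity), hz]
    calc t ^ 3 / 8 * (2 * t) = t ^ 4 / 4 := by ring
      _ ≤ _ := hw
  have hlen2 : Real.exp z / 2 ≤ l := by
    have h3 : l * Real.exp (-(w / (2 * t))) ≤ l * Real.exp (-z) :=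
      mul_le_mul_of_nonneg_left (Real.exp_le_exp.mpr (neg_le_neg hwz)) hl
    have h4 : (1 : ℝ) / 2 ≤ l * Real.exp (-z) := hlen.trans h3
    rw [Real.exp_neg, ← div_eq_mul_inv, le_div_iff₀ (Real.exp_pos z)] at h4
    linarith
  refine le_trans ?_ hlen2
  have hz8 : 8 ≤ z := by
    have h3 : (2 ^ 41 : ℝ) ^ 3 ≤ t ^ 3 := pow_le_pow_left₀ (by norm_num) ht 3
    rw [hz]
    have : (64 : ℝ) ≤ (2 ^ 41 : ℝ) ^ 3 := by norm_num
    linarith
  have hn7 : (n : ℝ) ^ ((1 : ℝ) / 7) ≤ z := by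
    have h3 : (n : ℝ) ≤ z ^ 7 := by
      refine hn.trans ?_
      have h4 : z ^ 7 = t ^ 20 * (t / 2 ^ 21) := by
        rw [hz]
        ring
      rw [h4, mul_pow, mul_comm]
      refine mul_le_mul_of_nonneg_left ?_ (by positivity)
      rw [le_div_iff₀ (by norm_num)]
      refine le_trans ?_ ht
      norm_num
    calc (n : ℝ) ^ ((1 : ℝ) / 7) ≤ (z ^ 7) ^ ((1 : ℝ) / 7) :=
          Real.rpow_le_rpow (Nat.cast_nonneg _) h3 (by norm_num)
      _ = z := by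
          rw [← Real.rpow_natCast, ← Real.rpow_mul (by linarith)]
          norm_num
  calc (2 : ℝ) ^ ((n : ℝ) ^ ((1 : ℝ) / 7)) ≤ (2 : ℝ) ^ z :=
        Real.rpow_le_rpow_of_exponent_le (by norm_num) hn7
    _ = Real.exp (Real.log 2 * z) := by
        rw [Real.rpow_def_of_pos (by norm_num)]
    _ ≤ Real.exp z / 2 := by
        rw [le_div_iff₀ (by norm_num)]
        have h4 : Real.exp (Real.log 2 * z) * 2 = Real.exp (Real.log 2 * z + Real.log 2) := by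
          rw [Real.exp_add, Real.exp_log (by norm_num)]
        rw [h4]
        refine Real.exp_le_exp.mpr ?_
        have h5 := Real.log_two_lt_d9
        nlinarith

end Pool.Agent.J4H24.PR
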