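import Pool.Agent.J4H24.PR.RandRes
import Pool.Agent.J4H24.PR.Arith

/-!
# Existence of rigid expanding systems, and the lower bound
-/

namespace Pool.Agent.J4H24.PR

open Finset

set_option linter.unusedSectionVars false

variable {V ι : Type*} [Fintype V] [DecidableEq V] [DecidableEq ι]

/-- failure of the expansion -/
lemma fr_fail3 [Nonempty V] [Fintype ι] {c : ℕ} (hc256 : c = 256) (K : ℕ)
    (hK : 384 * K ≤ Fintype.card V)
    (h : Fintype.card ι * (((384 * K : ℝ) ^ 4 / Fintype.card V) ^ 64) ≤ 1) :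
    fr (fun ω : ι → Row V c => ¬ ∀ J : Finset ι, J.card ≤ 2 * K →
      128 * J.card ≤ (supp (fun i => rowA (ω i).1) J).card) ≤
      2 * (Fintype.card ι * (((384 * K : ℝ) ^ 4 / Fintype.card V) ^ 64)) := by
  classical
  have hV : (0 : ℝ) < Fintype.card V := by exact_mod_cast Fintype.card_pos
  have hy0 : 0 ≤ ((384 * K : ℝ) ^ 4 / Fintype.card V) ^ 64 := pow_nonneg (by positivity) _
  refine le_trans ?_ (sum_pow_card hy0 h)
  refine le_trans ?_ ((fr_exists_finset (univ.filter fun J : Finset ι => J.Nonempty)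
    (fun (J : Finset ι) (ω : ι → Row V c) => J.card ≤ 2 * K ∧
      (nb (fun i => (ω i).1) J).card ≤ 192 * J.card)).trans ?_)
  · refine fr_mono fun ω hω => ?_
    push Not at hω
    obtain ⟨J, hJ, hs⟩ := hω
    refine ⟨J, ?_, hJ, ?_⟩
    · simp only [Finset.mem_filter, Finset.mem_univ, true_and]
      refine Finset.card_pos.mp ?_
      omega
    · have h3 := two_card_nb (fun i => (ω i).1) J
      have h4 : c * J.card = 256 * J.card := by rw [hc256]
      omega
  · refine Finset.sum_le_sum fun J hJ => ?_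
    by_cases hc : J.card ≤ 2 * K
    · refine (fr_mono fun ω hω => hω.2).trans ((fr_small_nb J (192 * J.card) (by omega)).trans ?_)
      rw [pow_mul, ← mul_pow, hc256]
      refine pow_le_pow_left₀ (mul_nonneg (pow_nonneg (Nat.cast_nonneg _) _)
        (pow_nonneg (div_nonneg (Nat.cast_nonneg _) (Nat.cast_nonneg _)) _)) ?_ _
      have h1 : ((192 * J.card : ℕ) : ℝ) ≤ 384 * K := by
        have : 192 * J.card ≤ 384 * K := by omega
        exact_mod_cast this
      rw [arith_small hV.ne']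
      refine pow_le_pow_left₀ (by positivity) ?_ _
      refine div_le_div_of_nonneg_right ?_ hV.le
      exact pow_le_pow_left₀ (by positivity) h1 _
    · have : fr (fun ω : ι → Row V c => J.card ≤ 2 * K ∧
          (nb (fun i => (ω i).1) J).card ≤ 192 * J.card) = 0 := by
        unfold fr
        simp [hc]
      rw [this]
      exact pow_nonneg hy0 _

/-- existence of the systems -/
theorem exists_system_aux (n t m c : ℕ) (hc : c = 256) [NeZero c] (ht : 2 ^ 20 ≤ t)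
    (h1 : t ^ 20 ≤ n) (h2 : n < (t + 1) ^ 20) (hmR : (m : ℝ) = 12 * 3 ^ c * (n : ℝ) ^ 2) :
    ∃ (A : Fin m → Fin n → ZMod 2) (b : Fin m → ZMod 2),
      (∀ i, (vars A i).card ≤ c) ∧ H1 A ((n + 1) / 2) ∧ H2 A b ((n + 1) / 2) ∧
      ∀ J : Finset (Fin m), J.card ≤ 2 * t ^ 4 → 128 * J.card ≤ (supp A J).card := by
  classical
  have hn1 : 1 ≤ n := le_trans (Nat.one_le_pow _ _ (by omega)) h1
  have hn3 : 3 ≤ n := by
    have : (2 ^ 20) ^ 20 ≤ n := (Nat.pow_le_pow_left ht 20).trans h1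
    refine le_trans (by norm_num) this
  have hnn : NeZero n := ⟨by omega⟩
  have hnR : (1 : ℝ) ≤ n := by exact_mod_cast hn1
  have htR : (2 : ℝ) ^ 20 ≤ t := by exact_mod_cast ht
  have ht0 : (0 : ℝ) < t := lt_of_lt_of_le (by norm_num) htR
  have h1R : (t : ℝ) ^ 20 ≤ n := by exact_mod_cast h1
  have h2R : (n : ℝ) ≤ (2 * t) ^ 20 := by
    have : n ≤ (2 * t) ^ 20 := h2.le.trans (Nat.pow_le_pow_left (by omega) 20)
    exact_mod_cast this
  have hp : (0 : ℝ) < 3 ^ c := pow_pos (by norm_num) _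
  have hp1 : (3 : ℝ) ^ c ≤ 2 ^ 512 := by
    rw [hc]
    exact three_pow_le
  have hdp : (1 / 3 : ℝ) ^ c = 1 / 3 ^ c := one_div_pow _ _
  -- the first condition
  have f1 := fr_fail1 (V := Fin n) (ι := Fin m) (c := c) 0 ((n + 1) / 2) (by
    rw [Fintype.card_fin]; omega)
  have e1 := arith_e1 hn1 hp hmR
  -- the second condition
  have f2 := fr_fail2 (V := Fin n) (ι := Fin m) (c := c) ((n + 1) / 2) (by
    rw [Fintype.card_fin]; omega)
  have e2 := arith_e2 hn1 hp hmR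
  -- the expansion
  have hKn : 384 * t ^ 4 ≤ n := by
    refine le_trans ?_ h1
    calc 384 * t ^ 4 ≤ t * t ^ 4 := Nat.mul_le_mul_right _ (by omega)
      _ = t ^ 5 := by ring
      _ ≤ t ^ 20 := Nat.pow_le_pow_right (by omega) (by norm_num)
  have hmy := arith_my hp hp1 htR (by linarith) h1R h2R
  rw [← hmR] at hmy
  have hmy0 : 0 ≤ (m : ℝ) * ((384 * (t : ℝ) ^ 4) ^ 4 / (n : ℝ)) ^ 64 :=
    mul_nonneg (Nat.cast_nonneg _) (arith_nn (Nat.cast_nonneg _))
  have hK : ((t ^ 4 : ℕ) : ℝ) = (t : ℝ) ^ 4 := by push_cast; ring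
  have f3 := fr_fail3 (V := Fin n) (ι := Fin m) hc (t ^ 4) (by rw [Fintype.card_fin]; exact hKn) (by
    rw [Fintype.card_fin, Fintype.card_fin, hK]
    linarith)
  rw [Fintype.card_fin, Fintype.card_fin] at f1 f2 f3
  rw [hK] at f3
  rw [hdp] at f1 f2
  have g1 := f1.trans e1
  have g2 := f2.trans e2
  have g3 : fr (fun ω : Fin m → Row (Fin n) c => ¬ ∀ J : Finset (Fin m), J.card ≤ 2 * t ^ 4 →
      128 * J.card ≤ (supp (fun i => rowA (ω i).1) J).card) ≤ 1 / 5 :=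
    f3.trans (by linarith)
  have f : fr (fun ω : Fin m → Row (Fin n) c => ¬ H1 (fun i => rowA (ω i).1) ((n + 1) / 2) ∨
      (¬ H2 (fun i => rowA (ω i).1) (fun i => bz (ω i).2) ((n + 1) / 2) ∨
      ¬ ∀ J : Finset (Fin m), J.card ≤ 2 * t ^ 4 →
      128 * J.card ≤ (supp (fun i => rowA (ω i).1) J).card)) < 1 := by
    refine (fr_or _ _).trans_lt ?_
    have g := fr_or (fun ω : Fin m → Row (Fin n) c =>
      ¬ H2 (fun i => rowA (ω i).1) (fun i => bz (ω i).2) ((n + 1) / 2))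
      (fun ω => ¬ ∀ J : Finset (Fin m), J.card ≤ 2 * t ^ 4 →
      128 * J.card ≤ (supp (fun i => rowA (ω i).1) J).card)
    linarith
  obtain ⟨ω, hω⟩ := exists_not_of_fr_lt f
  push Not at hω
  obtain ⟨g1, g2, g3⟩ := hω
  exact ⟨fun i => rowA (ω i).1, fun i => bz (ω i).2, fun i => vars_rowA_card (fun i => (ω i).1) i,
    g1, g2, g3⟩

/-- the lower bound for the systems -/
theorem length_bound (n t m c : ℕ) (hc : c = 256) (ht : 2 ^ 41 ≤ t) (h1 : t ^ 20 ≤ n)
    (h2 : n < (t + 1) ^ 20) (hmR : (m : ℝ) = 12 * 3 ^ c * (n : ℝ) ^ 2)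
    {A : Fin m → Fin n → ZMod 2} {b : Fin m → ZMod 2}
    (hA : ∀ i, (vars A i).card ≤ c) (hH1 : H1 A ((n + 1) / 2)) (hH2 : H2 A b ((n + 1) / 2))
    (hE : ∀ J : Finset (Fin m), J.card ≤ 2 * t ^ 4 → 128 * J.card ≤ (supp A J).card)
    (L : List (Finset (Fin n × Bool))) (hL : Derivation (sys A b) L) (he : ∅ ∈ L) :
    (2 : ℝ) ^ ((n : ℝ) ^ ((1 : ℝ) / 7)) ≤ L.length := by
  classical
  have hn1 : 1 ≤ n := le_trans (Nat.one_le_pow _ _ (by omega)) h1
  have hnR : (1 : ℝ) ≤ n := by exact_mod_cast hn1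
  have htR : (2 : ℝ) ^ 41 ≤ t := by exact_mod_cast ht
  have htR' : (2 : ℝ) ^ 20 ≤ t := le_trans (by norm_num) htR
  have : NeZero t := ⟨by omega⟩
  have h2R : (n : ℝ) ≤ (2 * t) ^ 20 := by
    have : n ≤ (2 * t) ^ 20 := h2.le.trans (Nat.pow_le_pow_left (by omega) 20)
    exact_mod_cast this
  have ht4 : 2 ^ 41 ≤ t ^ 4 := ht.trans (Nat.le_self_pow (by norm_num) t)
  have hKn : t ^ 4 ≤ n := (Nat.pow_le_pow_right (by omega) (by norm_num)).trans h1
  have hp : (0 : ℝ) < 3 ^ c := pow_pos (by norm_num) _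
  have hp1 : (3 : ℝ) ^ c ≤ 2 ^ 512 := by
    rw [hc]
    exact three_pow_le
  obtain ⟨w, hw⟩ : ∃ w : ℕ, w = (t ^ 4 - 256) / 2 := ⟨_, rfl⟩
  have hlen : (1 : ℝ) / 2 ≤ L.length * Real.exp (-(w / (2 * t))) := by
    by_contra hcon
    push Not at hcon
    obtain ⟨D0, x0, g1, g2, g3⟩ := exists_restriction (t := t) (ι := Fin m) (A := A) (K := t ^ 4)
      (w := w) hE (by rw [Fintype.card_fin]; exact hKn)
      (by rw [Fintype.card_fin]; exact hn1) (by
        rw [Fintype.card_fin, Fintype.card_fin, hmR]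
        exact arith_res hp hp1 htR' (by linarith) h2R) L hcon
    obtain ⟨C, hC, hns⟩ := exists_wide (w := w) (q := (n + 1) / 2) (a := c) g1
      (by omega) (by omega) (by omega) (by rw [Fintype.card_fin]; omega) hA hH1 hH2 g2 hL he
    exact hns (g3 C hC)
  have hw : (t : ℝ) ^ 4 / 4 ≤ w := by
    have h3 : t ^ 4 ≤ 4 * w := by omega
    have h4 : (t : ℝ) ^ 4 ≤ 4 * (w : ℝ) := by exact_mod_cast h3
    linarith
  exact arith_final h2R htR hw hlen (Nat.cast_nonneg _)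

/-- the system is unsatisfiable -/
lemma not_sat {A : ι → V → ZMod 2} {b : ι → ZMod 2} {q : ℕ} (h : H2 A b q) : ¬ Sat (sys A b) := by
  rintro ⟨x, hx⟩
  obtain ⟨i, -, hi⟩ := h ∅ (by simp) x
  obtain ⟨l, hl, hxl⟩ := hx (cl A i x) ⟨i, x, hi, rfl⟩
  obtain ⟨v, -, rfl⟩ := Finset.mem_image.mp hl
  simp at hxl

/-- the number of the clauses -/
lemma card_sys [Fintype ι] {A : ι → V → ZMod 2} {b : ι → ZMod 2} {a : ℕ}
    (hA : ∀ i, (vars A i).card ≤ a) (F : Finset (Finset (V × Bool)))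
    (hF : (F : Set (Finset (V × Bool))) = sys A b) : F.card ≤ 4 ^ a * Fintype.card ι := by
  classical
  have h1 : F ⊆ univ.biUnion fun i : ι => (vars A i ×ˢ (univ : Finset Bool)).powerset := by
    intro D hD
    have : D ∈ sys A b := by
      rw [← hF]
      exact hD
    obtain ⟨i, θ, -, rfl⟩ := this
    simp only [Finset.mem_biUnion, Finset.mem_univ, true_and, Finset.mem_powerset]
    refine ⟨i, ?_⟩
    intro l hl
    obtain ⟨v, hv, rfl⟩ := Finset.mem_image.mp hl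
    simp [hv]
  refine (Finset.card_le_card h1).trans (Finset.card_biUnion_le.trans ?_)
  have h2 : ∀ i ∈ (univ : Finset ι), ((vars A i ×ˢ (univ : Finset Bool)).powerset).card ≤ 4 ^ a := by
    intro i _
    rw [Finset.card_powerset, Finset.card_product, Finset.card_univ, Fintype.card_bool]
    calc 2 ^ ((vars A i).card * 2) ≤ 2 ^ (a * 2) :=
          Nat.pow_le_pow_right (by norm_num) (Nat.mul_le_mul_right _ (hA i))
      _ = 4 ^ a := by rw [mul_comm, pow_mul]; norm_num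
  refine (Finset.sum_le_card_nsmul _ _ _ h2).trans ?_
  rw [Finset.card_univ, smul_eq_mul, mul_comm]

/-- the clauses are narrow -/
lemma card_clause {A : ι → V → ZMod 2} {b : ι → ZMod 2} {a : ℕ}
    (hA : ∀ i, (vars A i).card ≤ a) {D : Finset (V × Bool)} (hD : D ∈ sys A b) : D.card ≤ a := by
  obtain ⟨i, θ, -, rfl⟩ := hD
  exact Finset.card_image_le.trans (hA i)

/-- the main theorem -/
theorem main : ∃ k C N : ℕ, ∀ n ≥ N, ∃ F : Finset (Finset (Fin n × Bool)),
    ¬ Sat (F : Set (Finset (Fin n × Bool))) ∧ (∀ D ∈ F, D.card ≤ k) ∧ F.card ≤ C * n ^ 2 ∧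
    ∀ L : List (Finset (Fin n × Bool)), Derivation (F : Set (Finset (Fin n × Bool))) L → ∅ ∈ L →
      (2 : ℝ) ^ ((n : ℝ) ^ ((1 : ℝ) / 7)) ≤ L.length := by
  classical
  obtain ⟨c, hc⟩ : ∃ c : ℕ, c = 256 := ⟨256, rfl⟩
  have : NeZero c := ⟨by omega⟩
  obtain ⟨T, hT⟩ : ∃ T : ℕ, T = 2 ^ 41 := ⟨_, rfl⟩
  have hT1 : 1 ≤ T := by rw [hT]; norm_num
  refine ⟨c, 4 ^ c * (12 * 3 ^ c), T ^ 20, fun n hn => ?_⟩
  -- the root
  obtain ⟨t, h1, h2⟩ : ∃ t : ℕ, t ^ 20 ≤ n ∧ n < (t + 1) ^ 20 := by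
    have hex : ∃ s : ℕ, n < (s + 1) ^ 20 :=
      ⟨n, lt_of_lt_of_le (Nat.lt_succ_self n) (Nat.le_self_pow (by norm_num) _)⟩
    refine ⟨Nat.find hex, ?_, Nat.find_spec hex⟩
    by_contra hcon
    push Not at hcon
    have hpos : Nat.find hex ≠ 0 := by
      intro h0
      rw [h0] at hcon
      simp at hcon
    obtain ⟨s, hs⟩ := Nat.exists_eq_succ_of_ne_zero hpos
    have hlt : s < Nat.find hex := by omega
    apply Nat.find_min hex hlt
    rw [hs] at hcon
    exact hcon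
  have ht : T ≤ t := by
    by_contra hcon
    push Not at hcon
    have h3 : (t + 1) ^ 20 ≤ T ^ 20 := Nat.pow_le_pow_left hcon 20
    omega
  have hmR : ((12 * 3 ^ c * n ^ 2 : ℕ) : ℝ) = 12 * 3 ^ c * (n : ℝ) ^ 2 := by
    push_cast
    ring
  obtain ⟨m, hm⟩ : ∃ m : ℕ, m = 12 * 3 ^ c * n ^ 2 := ⟨_, rfl⟩
  rw [← hm] at hmR
  obtain ⟨A, b, hA, hH1, hH2, hE⟩ := exists_system_aux n t m c hc (by
    rw [hT] at ht
    exact le_trans (by norm_num) ht) h1 h2 hmR
  have hfin : (sys A b).Finite := Set.toFinite _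
  have hF : (hfin.toFinset : Set (Finset (Fin n × Bool))) = sys A b := hfin.coe_toFinset
  refine ⟨hfin.toFinset, ?_, ?_, ?_, ?_⟩
  · rw [hF]
    exact not_sat hH2
  · intro D hD
    exact card_clause hA (hfin.mem_toFinset.mp hD)
  · have h3 := card_sys hA hfin.toFinset hF
    rw [Fintype.card_fin] at h3
    rw [mul_assoc, ← hm]
    exact h3
  · intro L hL he
    rw [hF] at hL
    exact length_bound n t m c hc (by rw [← hT]; exact ht) h1 h2 hmR hA hH1 hH2 hE L hL he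

end Pool.Agent.J4H24.PR
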