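import Mathlib

/-!
# Propagation redundancy without new variables: definitions

Clauses are finite sets of literals; a literal is a pair `(v, c)` of a variable and the value of the
variable that makes the literal true.
-/

namespace Pool.Agent.J4H24.PR

variable {V : Type*}

/-- the negation of a literal -/
def neg (l : V × Bool) : V × Bool := (l.1, !l.2)

@[simp] lemma neg_neg (l : V × Bool) : neg (neg l) = l := by simp [neg]

@[simp] lemma neg_fst (l : V × Bool) : (neg l).1 = l.1 := rfl

@[simp] lemma neg_snd (l : V × Bool) : (neg l).2 = !l.2 := rfl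

/-- `UP Γ S l`: the literal `l` is obtained from the literals of `S` by unit propagation with the
clauses of `Γ`. -/
inductive UP (Γ : Set (Finset (V × Bool))) (S : Set (V × Bool)) : V × Bool → Prop
  | init {l : V × Bool} (h : l ∈ S) : UP Γ S l
  | unit {D : Finset (V × Bool)} {l : V × Bool} (hD : D ∈ Γ) (hl : l ∈ D)
      (h : ∀ l' ∈ D, l' ≠ l → UP Γ S (neg l')) : UP Γ S l

/-- Unit propagation with the clauses of `Γ`, started with the literals of `S`, finds a conflict: a
clause all of whose literals are refuted, or two complementary literals. -/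
def Refutes (Γ : Set (Finset (V × Bool))) (S : Set (V × Bool)) : Prop :=
  (∃ D ∈ Γ, ∀ l ∈ D, UP Γ S (neg l)) ∨ ∃ v, UP Γ S (v, true) ∧ UP Γ S (v, false)

/-- Reverse unit propagation: the negation of `C` is refuted by unit propagation. -/
def RUP (Γ : Set (Finset (V × Bool))) (C : Finset (V × Bool)) : Prop :=
  Refutes Γ {l | neg l ∈ C}

/-- `C` is propagation redundant with respect to `Γ`: some partial assignment `τ` satisfies `C`, and
for every clause `D` of `Γ` which is not satisfied by `τ`, unit propagation refutes the negation of
`C` together with the negation of the restriction of `D` by `τ`. -/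
def PRed (Γ : Set (Finset (V × Bool))) (C : Finset (V × Bool)) : Prop :=
  ∃ τ : V → Option Bool, (∃ l ∈ C, τ l.1 = some l.2) ∧
    ∀ D ∈ Γ, (∀ l ∈ D, τ l.1 ≠ some l.2) →
      Refutes Γ {l | neg l ∈ C ∨ (neg l ∈ D ∧ τ l.1 = none)}

/-- `Derivation F L`: the clauses of the list `L` (the last one first) are derived from the clauses
of `F` by reverse unit propagation and by propagation redundancy, with respect to the clauses of `F`
and the clauses derived before. -/
inductive Derivation (F : Set (Finset (V × Bool))) : List (Finset (V × Bool)) → Prop
  | nil : Derivation F []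
  | cons {C : Finset (V × Bool)} {L : List (Finset (V × Bool))} (hL : Derivation F L)
      (hC : RUP {D | D ∈ F ∨ D ∈ L} C ∨ PRed {D | D ∈ F ∨ D ∈ L} C) : Derivation F (C :: L)

/-- The formula with the clauses `F` is satisfiable. -/
def Sat (F : Set (Finset (V × Bool))) : Prop :=
  ∃ x : V → Bool, ∀ D ∈ F, ∃ l ∈ D, x l.1 = l.2

end Pool.Agent.J4H24.PR
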