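import Mathlib

/-!
# The fraction of the elements of a finite type with a property
-/

namespace Pool.Agent.J4H24

open Finset Classical

/-- the fraction of the elements of `Ω` with the property `p` -/
noncomputable def fr {Ω : Type*} [Fintype Ω] (p : Ω → Prop) : ℝ :=
  (∑ ω, if p ω then (1 : ℝ) else 0) / Fintype.card Ω

section

variable {Ω : Type*} [Fintype Ω]

lemma fr_nonneg (p : Ω → Prop) : 0 ≤ fr p := by
  unfold fr
  refine div_nonneg (Finset.sum_nonneg fun ω _ => ?_) (Nat.cast_nonneg _)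
  split_ifs <;> norm_num

lemma fr_mono {p q : Ω → Prop} (h : ∀ ω, p ω → q ω) : fr p ≤ fr q := by
  unfold fr
  refine div_le_div_of_nonneg_right (Finset.sum_le_sum fun ω _ => ?_) (Nat.cast_nonneg _)
  by_cases hp : p ω
  · simp [hp, h ω hp]
  · simp only [hp, if_false]
    split_ifs <;> norm_num

lemma fr_congr {p q : Ω → Prop} (h : ∀ ω, p ω ↔ q ω) : fr p = fr q :=
  le_antisymm (fr_mono fun ω => (h ω).1) (fr_mono fun ω => (h ω).2)

lemma fr_or (p q : Ω → Prop) : fr (fun ω => p ω ∨ q ω) ≤ fr p + fr q := by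
  unfold fr
  rw [← add_div, ← Finset.sum_add_distrib]
  refine div_le_div_of_nonneg_right (Finset.sum_le_sum fun ω _ => ?_) (Nat.cast_nonneg _)
  by_cases hp : p ω <;> by_cases hq : q ω <;> simp [hp, hq]

lemma fr_exists_finset {I : Type*} (s : Finset I) (p : I → Ω → Prop) :
    fr (fun ω => ∃ i ∈ s, p i ω) ≤ ∑ i ∈ s, fr (p i) := by
  induction s using Finset.induction_on with
  | empty => simp [fr]
  | insert i s hi ih =>
    rw [Finset.sum_insert hi]
    refine le_trans ?_ ((fr_or (p i) (fun ω => ∃ i ∈ s, p i ω)).trans (by linarith))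
    refine fr_mono fun ω hω => ?_
    obtain ⟨j, hj, hp⟩ := hω
    rcases Finset.mem_insert.mp hj with rfl | hj
    · exact Or.inl hp
    · exact Or.inr ⟨j, hj, hp⟩

lemma fr_exists {I : Type*} [Fintype I] (p : I → Ω → Prop) :
    fr (fun ω => ∃ i, p i ω) ≤ ∑ i, fr (p i) := by
  refine le_trans (fr_mono fun ω hω => ?_) (fr_exists_finset univ p)
  obtain ⟨i, hi⟩ := hω
  exact ⟨i, mem_univ _, hi⟩

lemma fr_true [Nonempty Ω] : fr (fun _ : Ω => True) = 1 := by
  unfold fr
  simp

lemma fr_le_one [Nonempty Ω] (p : Ω → Prop) : fr p ≤ 1 := by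
  rw [← fr_true (Ω := Ω)]
  exact fr_mono fun _ _ => trivial

lemma fr_not [Nonempty Ω] (p : Ω → Prop) : fr (fun ω => ¬ p ω) = 1 - fr p := by
  have h : fr p + fr (fun ω => ¬ p ω) = 1 := by
    rw [← fr_true (Ω := Ω)]
    unfold fr
    rw [← add_div, ← Finset.sum_add_distrib]
    congr 1
    refine Finset.sum_congr rfl fun ω _ => ?_
    by_cases hp : p ω <;> simp [hp]
  linarith

lemma exists_not_of_fr_lt [Nonempty Ω] {p : Ω → Prop} (h : fr p < 1) : ∃ ω, ¬ p ω := by
  by_contra hcon
  push Not at hcon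
  have : fr p = 1 := by
    rw [← fr_true (Ω := Ω)]
    exact fr_congr fun ω => by simp [hcon ω]
  linarith

lemma fr_pi {ι X : Type*} [Fintype ι] [DecidableEq ι] [Fintype X] (q : ι → X → Prop) :
    fr (fun ω : ι → X => ∀ i, q i (ω i)) = ∏ i, fr (q i) := by
  unfold fr
  rw [Finset.prod_div_distrib]
  congr 1
  · rw [Fintype.prod_sum]
    refine Finset.sum_congr rfl fun ω _ => ?_
    by_cases h : ∀ i, q i (ω i)
    · simp [h]
    · rw [if_neg h]
      push Not at h
      obtain ⟨i, hi⟩ := h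
      exact (Finset.prod_eq_zero (mem_univ i) (by simp [hi])).symm
  · simp

lemma fr_pi_subset {ι X : Type*} [Fintype ι] [DecidableEq ι] [Fintype X] [Nonempty X]
    (J : Finset ι) (q : X → Prop) :
    fr (fun ω : ι → X => ∀ i ∈ J, q (ω i)) = fr q ^ J.card := by
  have h1 : fr (fun ω : ι → X => ∀ i ∈ J, q (ω i)) =
      ∏ i, fr (fun x : X => i ∈ J → q x) := by
    rw [← fr_pi]
  rw [h1, ← Finset.prod_subset (Finset.subset_univ J) (by
    intro i _ hi
    rw [← fr_true (Ω := X)]
    exact fr_congr fun x => by simp [hi])]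
  rw [Finset.prod_congr rfl (g := fun _ => fr q) (by
    intro i hi
    exact fr_congr fun x => by simp [hi])]
  rw [Finset.prod_const]

lemma fr_eq_card (p : Ω → Prop) : fr p = ((univ.filter p).card : ℝ) / Fintype.card Ω := by
  unfold fr
  rw [Finset.sum_boole]

lemma fr_fst {X Y : Type*} [Fintype X] [Fintype Y] [Nonempty Y] (p : X → Prop) :
    fr (fun x : X × Y => p x.1) = fr p := by
  unfold fr
  rw [Fintype.sum_prod_type]
  have h1 : (∑ x : X, ∑ y : Y, if p (x, y).1 then (1 : ℝ) else 0) =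
      Fintype.card Y * ∑ x : X, if p x then (1 : ℝ) else 0 := by
    rw [Finset.mul_sum]
    refine Finset.sum_congr rfl fun x _ => ?_
    by_cases hp : p x <;> simp [hp]
  rw [h1, Fintype.card_prod, Nat.cast_mul, mul_comm]
  have : (Fintype.card Y : ℝ) ≠ 0 := by
    exact_mod_cast Fintype.card_ne_zero
  rw [mul_div_mul_right _ _ this]

lemma fr_graph {X : Type*} [Fintype X] (p : X → Prop) (f : X → Bool) :
    fr (fun x : X × Bool => p x.1 ∧ x.2 = f x.1) = fr p / 2 := by
  unfold fr
  rw [Fintype.sum_prod_type, Fintype.card_prod, Fintype.card_bool, Nat.cast_mul, Nat.cast_ofNat,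
    div_div]
  congr 1
  refine Finset.sum_congr rfl fun x _ => ?_
  rw [Fintype.sum_bool]
  by_cases hp : p x <;> by_cases hf : f x = true <;> simp [hp, hf]

/-- sums over nonempty sets of powers -/
lemma sum_pow_card {ι : Type*} [Fintype ι] [DecidableEq ι] {y : ℝ} (hy : 0 ≤ y)
    (h : Fintype.card ι * y ≤ 1) :
    ∑ J ∈ (univ : Finset (Finset ι)).filter (fun J => J.Nonempty), y ^ J.card ≤
      2 * (Fintype.card ι * y) := by
  have h1 : ∑ J : Finset ι, y ^ J.card = (1 + y) ^ Fintype.card ι := by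
    have := Fintype.sum_pow_mul_eq_add_pow ι y 1
    simpa [add_comm] using this
  have h2 : ∑ J : Finset ι, y ^ J.card =
      1 + ∑ J ∈ (univ : Finset (Finset ι)).filter (fun J => J.Nonempty), y ^ J.card := by
    rw [← Finset.sum_filter_add_sum_filter_not univ (fun J : Finset ι => ¬ J.Nonempty)]
    congr 1
    · rw [Finset.sum_congr (s₂ := {∅}) (g := fun _ => (1 : ℝ)) ?_ ?_]
      · simp
      · ext J
        simp [Finset.not_nonempty_iff_eq_empty]
      · intro J hJ
        rw [Finset.mem_singleton] at hJ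
        simp [hJ]
    · refine Finset.sum_congr ?_ fun _ _ => rfl
      ext J
      simp [Finset.nonempty_iff_ne_empty]
  have h3 : (1 + y) ^ Fintype.card ι ≤ Real.exp (Fintype.card ι * y) := by
    rw [mul_comm, Real.exp_mul, ← Real.rpow_natCast]
    refine Real.rpow_le_rpow (by linarith) ?_ (Nat.cast_nonneg _)
    linarith [Real.add_one_le_exp y]
  have h4 : Real.exp (Fintype.card ι * y) ≤ 1 + 2 * (Fintype.card ι * y) := by
    have h0 : 0 ≤ Fintype.card ι * y := by positivity
    have := Real.abs_exp_sub_one_le (x := Fintype.card ι * y) (by rw [abs_of_nonneg h0]; exact h)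
    rw [abs_of_nonneg h0] at this
    have h5 := le_abs_self (Real.exp (Fintype.card ι * y) - 1)
    linarith
  linarith

end

end Pool.Agent.J4H24
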