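import Pool.Agent.J4H24.PR.Defs

/-!
# Local consistency of partial assignments for systems of linear equations modulo 2
-/

namespace Pool.Agent.J4H24.PR

open Finset

set_option linter.unusedSectionVars false

variable {V ι : Type*} [Fintype V] [DecidableEq V] [DecidableEq ι]

/-- the element of `ZMod 2` given by a Boolean value -/
def bz (c : Bool) : ZMod 2 := if c then 1 else 0

lemma zmod2_cases (a : ZMod 2) : a = 0 ∨ a = 1 := by
  revert a; decide

lemma zmod2_ne {a c : ZMod 2} (h : a ≠ c) : a = c + 1 := by
  revert a c; decide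

lemma bz_inj {a c : Bool} (h : bz a = bz c) : a = c := by
  revert a c; decide

lemma bz_ne {a c : Bool} (h : a ≠ c) : bz a = bz c + 1 := by
  revert a c; decide

/-- the left-hand side of the sum of the equations in `J` -/
def AJ (A : ι → V → ZMod 2) (J : Finset ι) (v : V) : ZMod 2 := ∑ j ∈ J, A j v

/-- the value of the sum of the equations of `J` at an assignment -/
def T (A : ι → V → ZMod 2) (J : Finset ι) (x : V → Bool) : ZMod 2 := ∑ v, AJ A J v * bz (x v)

/-- Local consistency of the partial assignment `x` with domain `D`: no sum of at most `K` equations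
whose variables lie in `D` is violated. -/
def LC (A : ι → V → ZMod 2) (b : ι → ZMod 2) (K : ℕ) (D : Finset V) (x : V → Bool) : Prop :=
  ∀ J : Finset ι, J.card ≤ K → (∀ v, AJ A J v ≠ 0 → v ∈ D) → T A J x = ∑ j ∈ J, b j

omit [Fintype V] [DecidableEq V] in
lemma sum_symmDiff (f : ι → ZMod 2) (J J' : Finset ι) :
    ∑ j ∈ symmDiff J J', f j = ∑ j ∈ J, f j + ∑ j ∈ J', f j := by
  have h1 : symmDiff J J' = (J \ J') ∪ (J' \ J) := rfl
  have hd : Disjoint (J \ J') (J' \ J) := by
    rw [Finset.disjoint_left]
    intro a ha hb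
    simp only [Finset.mem_sdiff] at ha hb
    exact hb.2 ha.1
  rw [h1, Finset.sum_union hd]
  have h2 : ∑ j ∈ J, f j = ∑ j ∈ J \ J', f j + ∑ j ∈ J ∩ J', f j := by
    rw [add_comm]
    exact (Finset.sum_inter_add_sum_sdiff J J' f).symm
  have h3 : ∑ j ∈ J', f j = ∑ j ∈ J' \ J, f j + ∑ j ∈ J ∩ J', f j := by
    rw [add_comm, Finset.inter_comm]
    exact (Finset.sum_inter_add_sum_sdiff J' J f).symm
  rw [h2, h3]
  have h4 : ∀ z : ZMod 2, z + z = 0 := by decide
  have := h4 (∑ j ∈ J ∩ J', f j)
  calc _ = ∑ j ∈ J \ J', f j + ∑ j ∈ J' \ J, f j + 0 := by ring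
    _ = ∑ j ∈ J \ J', f j + ∑ j ∈ J' \ J, f j + (∑ j ∈ J ∩ J', f j + ∑ j ∈ J ∩ J', f j) := by
        rw [this]
    _ = _ := by ring

lemma AJ_symmDiff (A : ι → V → ZMod 2) (J J' : Finset ι) (v : V) :
    AJ A (symmDiff J J') v = AJ A J v + AJ A J' v := sum_symmDiff _ _ _

lemma T_symmDiff (A : ι → V → ZMod 2) (J J' : Finset ι) (x : V → Bool) :
    T A (symmDiff J J') x = T A J x + T A J' x := by
  unfold T
  rw [← Finset.sum_add_distrib]
  refine Finset.sum_congr rfl fun v _ => ?_
  rw [AJ_symmDiff, add_mul]

lemma T_congr (A : ι → V → ZMod 2) (J : Finset ι) {x y : V → Bool}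
    (h : ∀ v, AJ A J v ≠ 0 → x v = y v) : T A J x = T A J y := by
  unfold T
  refine Finset.sum_congr rfl fun v _ => ?_
  by_cases hv : AJ A J v = 0
  · rw [hv, zero_mul, zero_mul]
  · rw [h v hv]

lemma T_update (A : ι → V → ZMod 2) (J : Finset ι) (x : V → Bool) (v : V) :
    T A J (Function.update x v true) = T A J (Function.update x v false) + AJ A J v := by
  unfold T
  rw [← Finset.add_sum_erase univ _ (mem_univ v),
    ← Finset.add_sum_erase univ (fun u => AJ A J u * bz (Function.update x v false u)) (mem_univ v)]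
  have h : ∑ u ∈ univ.erase v, AJ A J u * bz (Function.update x v true u) =
      ∑ u ∈ univ.erase v, AJ A J u * bz (Function.update x v false u) := by
    refine Finset.sum_congr rfl fun u hu => ?_
    have hne : u ≠ v := (Finset.mem_erase.mp hu).1
    rw [Function.update_of_ne hne, Function.update_of_ne hne]
  rw [h]
  simp [bz]
  ring

variable {A : ι → V → ZMod 2} {b : ι → ZMod 2} {K : ℕ}

lemma LC.mono {D D' : Finset V} {x : V → Bool} (h : LC A b K D x) (hD : D' ⊆ D) :
    LC A b K D' x := fun J hJ hs => h J hJ fun v hv => hD (hs v hv)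

lemma LC.congr {D : Finset V} {x y : V → Bool} (h : LC A b K D x) (hxy : ∀ v ∈ D, x v = y v) :
    LC A b K D y := fun J hJ hs => by
  rw [← h J hJ hs]
  exact T_congr A J fun v hv => (hxy v (hs v hv)).symm

/-- the closure property: sums of at most `2 K` equations with at most `s` variables outside `D0`
consist of at most `K` equations -/
def P1 (A : ι → V → ZMod 2) (K s : ℕ) (D0 : Finset V) : Prop :=
  ∀ J : Finset ι, J.card ≤ 2 * K →
    (univ.filter fun v => AJ A J v ≠ 0 ∧ v ∉ D0).card ≤ s → J.card ≤ K

lemma LC.extend {D0 D : Finset V} {x : V → Bool} {s : ℕ} (hP : P1 A K s D0)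
    (h : LC A b K D x) (hs : (D \ D0).card ≤ s) {v : V} (hv : v ∉ D) :
    ∃ c, LC A b K (insert v D) (Function.update x v c) := by
  by_contra hcon
  push Not at hcon
  have hf := hcon false
  have ht := hcon true
  unfold LC at hf ht
  push Not at hf ht
  obtain ⟨J0, hJ0, hs0, hne0⟩ := hf
  obtain ⟨J1, hJ1, hs1, hne1⟩ := ht
  have key : ∀ J : Finset ι, J.card ≤ K → (∀ u, AJ A J u ≠ 0 → u ∈ insert v D) → ∀ c,
      T A J (Function.update x v c) ≠ ∑ j ∈ J, b j → AJ A J v = 1 := by
    intro J hJ hsJ c hne
    rcases zmod2_cases (AJ A J v) with h0 | h1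
    · exfalso
      apply hne
      rw [← h J hJ fun u hu => ?_]
      · refine T_congr A J fun u hu => ?_
        have : u ≠ v := by
          rintro rfl
          exact hu h0
        rw [Function.update_of_ne this]
      · rcases Finset.mem_insert.mp (hsJ u hu) with h2 | h2
        · subst h2
          exact absurd h0 hu
        · exact h2
    · exact h1
  have hv0 := key J0 hJ0 hs0 false hne0
  have hv1 := key J1 hJ1 hs1 true hne1
  have hsub : ∀ u, AJ A (symmDiff J0 J1) u ≠ 0 → u ∈ D := by
    intro u hu
    rw [AJ_symmDiff] at hu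
    have huv : u ≠ v := by
      rintro rfl
      rw [hv0, hv1] at hu
      exact hu (by decide)
    have : AJ A J0 u ≠ 0 ∨ AJ A J1 u ≠ 0 := by
      by_contra hc
      push Not at hc
      rw [hc.1, hc.2] at hu
      exact hu (by decide)
    rcases this with h2 | h2
    · exact (Finset.mem_insert.mp (hs0 u h2)).resolve_left huv
    · exact (Finset.mem_insert.mp (hs1 u h2)).resolve_left huv
  have hcard : (symmDiff J0 J1).card ≤ K := by
    refine hP _ ?_ ?_
    · calc (symmDiff J0 J1).card ≤ (J0 ∪ J1).card := by
            apply Finset.card_le_card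
            intro j hj
            rw [Finset.mem_symmDiff] at hj
            rw [Finset.mem_union]
            rcases hj with hj | hj
            · exact Or.inl hj.1
            · exact Or.inr hj.1
        _ ≤ J0.card + J1.card := Finset.card_union_le _ _
        _ ≤ 2 * K := by omega
    · refine le_trans (Finset.card_le_card ?_) hs
      intro u hu
      simp only [Finset.mem_filter, Finset.mem_univ, true_and] at hu
      rw [Finset.mem_sdiff]
      exact ⟨hsub u hu.1, hu.2⟩
  have h1 := h _ hcard hsub
  have h2 : T A (symmDiff J0 J1) x = T A (symmDiff J0 J1) (Function.update x v false) := by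
    refine T_congr A _ fun u hu => ?_
    have : u ≠ v := by
      rintro rfl
      exact hv (hsub u hu)
    rw [Function.update_of_ne this]
  rw [h2, T_symmDiff, sum_symmDiff] at h1
  have h3 := zmod2_ne hne0
  have h4 := zmod2_ne hne1
  rw [T_update, hv1] at h4
  have h5 : T A J1 (Function.update x v false) = ∑ j ∈ J1, b j := by
    exact add_right_cancel h4
  rw [h3, h5] at h1
  have : ∀ p q : ZMod 2, p + 1 + q ≠ p + q := by decide
  exact this _ _ h1

lemma LC.extend_many {D0 D : Finset V} {x : V → Bool} {s : ℕ} (hP : P1 A K s D0)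
    (h : LC A b K D x) (W : Finset V) (hs : (D \ D0).card + W.card ≤ s + 1) :
    ∃ y, LC A b K (D ∪ W) y ∧ ∀ v ∈ D, y v = x v := by
  induction W using Finset.induction_on with
  | empty => exact ⟨x, by simpa using h, fun _ _ => rfl⟩
  | insert v W hv ih =>
    rw [Finset.card_insert_of_notMem hv] at hs
    obtain ⟨y, hy, hyx⟩ := ih (by omega)
    by_cases hvD : v ∈ D ∪ W
    · refine ⟨y, ?_, hyx⟩
      rw [Finset.union_insert, Finset.insert_eq_self.mpr hvD]
      exact hy
    · have hc : ((D ∪ W) \ D0).card ≤ s := by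
        have : (D ∪ W) \ D0 ⊆ (D \ D0) ∪ W := by
          intro u hu
          simp only [Finset.mem_sdiff, Finset.mem_union] at hu ⊢
          tauto
        have h2 := (Finset.card_le_card this).trans (Finset.card_union_le _ _)
        omega
      obtain ⟨c, hc⟩ := hy.extend hP hc hvD
      refine ⟨Function.update y v c, ?_, ?_⟩
      · rw [Finset.union_insert]
        exact hc
      · intro u hu
        have : u ≠ v := by
          rintro rfl
          exact hvD (Finset.mem_union_left _ hu)
        rw [Function.update_of_ne this]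
        exact hyx u hu

end Pool.Agent.J4H24.PR
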