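import Pool.Agent.J4H24.PR.RandSys

/-!
# Random restrictions of expanding systems of linear equations modulo 2
-/

namespace Pool.Agent.J4H24.PR

open Finset

set_option linter.unusedSectionVars false

variable {V ι : Type*} [Fintype V] [DecidableEq V] [DecidableEq ι]

/-- the domain of a random restriction -/
def dom {t : ℕ} [NeZero t] (ρ : V → Fin t × Bool) : Finset V := univ.filter fun v => (ρ v).1 = 0

lemma mem_dom {t : ℕ} [NeZero t] {ρ : V → Fin t × Bool} {v : V} : v ∈ dom ρ ↔ (ρ v).1 = 0 := by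
  simp [dom]

lemma fr_zero (t : ℕ) [NeZero t] : fr (fun x : Fin t × Bool => x.1 = 0) = 1 / t := by
  rw [fr_fst (fun a : Fin t => a = 0), fr_eq, Fintype.card_fin]

lemma fr_zero_val (t : ℕ) [NeZero t] (e : Bool) :
    fr (fun x : Fin t × Bool => x.1 = 0 ∧ x.2 = e) = 1 / t / 2 := by
  rw [fr_graph (fun a : Fin t => a = 0) (fun _ => e), fr_eq, Fintype.card_fin]

lemma fr_sub_dom {t : ℕ} [NeZero t] (S : Finset V) :
    fr (fun ρ : V → Fin t × Bool => ∀ v ∈ S, (ρ v).1 = 0) = (1 / (t : ℝ)) ^ S.card := by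
  rw [fr_pi_subset S (fun x : Fin t × Bool => x.1 = 0), fr_zero]

lemma one_div_pow_le {t : ℕ} [NeZero t] {d e : ℕ} (h : d ≤ e) :
    (1 / (t : ℝ)) ^ e ≤ (1 / (t : ℝ)) ^ d := by
  have ht : (1 : ℝ) ≤ t := by exact_mod_cast NeZero.one_le
  refine pow_le_pow_of_le_one (by positivity) ?_ h
  rw [div_le_one (by linarith)]
  exact ht

/-- the restriction hits the support of a sum of few equations -/
lemma res_fail2 {t : ℕ} [NeZero t] [Fintype ι] {A : ι → V → ZMod 2} {K : ℕ}
    (hexp : ∀ J : Finset ι, J.card ≤ 2 * K → 128 * J.card ≤ (supp A J).card)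
    (h : Fintype.card ι * (1 / (t : ℝ)) ^ 128 ≤ 1) :
    fr (fun ρ : V → Fin t × Bool => ¬ ∀ J : Finset ι, J.card ≤ K →
      (∀ v, AJ A J v ≠ 0 → v ∈ dom ρ) → J = ∅) ≤
      2 * (Fintype.card ι * (1 / (t : ℝ)) ^ 128) := by
  classical
  refine le_trans ?_ (sum_pow_card (by positivity) h)
  refine le_trans ?_ ((fr_exists_finset (univ.filter fun J : Finset ι => J.Nonempty)
    (fun (J : Finset ι) (ρ : V → Fin t × Bool) =>
    J.card ≤ K ∧ ∀ v ∈ supp A J, (ρ v).1 = 0)).trans ?_)
  · refine fr_mono fun ρ hρ => ?_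
    push Not at hρ
    obtain ⟨J, hJ, hs, hne⟩ := hρ
    refine ⟨J, ?_, hJ, ?_⟩
    · simpa [Finset.nonempty_iff_ne_empty] using hne
    · intro v hv
      simp only [supp, Finset.mem_filter, Finset.mem_univ, true_and] at hv
      exact mem_dom.mp (hs v hv)
  · refine Finset.sum_le_sum fun J hJ => ?_
    by_cases hc : J.card ≤ K
    · have : fr (fun ρ : V → Fin t × Bool => J.card ≤ K ∧ ∀ v ∈ supp A J, (ρ v).1 = 0) =
          (1 / (t : ℝ)) ^ (supp A J).card := by
        rw [← fr_sub_dom]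
        exact fr_congr fun ρ => by simp [hc]
      rw [this, ← pow_mul]
      exact one_div_pow_le (hexp J (by omega))
    · have : fr (fun ρ : V → Fin t × Bool => J.card ≤ K ∧ ∀ v ∈ supp A J, (ρ v).1 = 0) = 0 := by
        unfold fr
        simp [hc]
      rw [this]
      positivity

/-- the closure property of the restriction fails -/
lemma res_fail1 {t : ℕ} [NeZero t] [Fintype ι] {A : ι → V → ZMod 2} {K : ℕ}
    (hexp : ∀ J : Finset ι, J.card ≤ 2 * K → 128 * J.card ≤ (supp A J).card)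
    (hK : K ≤ Fintype.card V) (hV : 1 ≤ Fintype.card V)
    (h : Fintype.card ι * (Fintype.card V * (1 / (t : ℝ)) ^ 127) ≤ 1) :
    fr (fun ρ : V → Fin t × Bool => ¬ P1 A K K (dom ρ)) ≤
      2 * (Fintype.card ι * (Fintype.card V * (1 / (t : ℝ)) ^ 127)) := by
  classical
  have hV' : (1 : ℝ) ≤ Fintype.card V := by exact_mod_cast hV
  refine le_trans ?_ (sum_pow_card (by positivity) h)
  refine le_trans ?_ ((fr_exists_finset (univ.filter fun J : Finset ι => J.Nonempty)
    (fun (J : Finset ι) (ρ : V → Fin t × Bool) =>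
    (K < J.card ∧ J.card ≤ 2 * K) ∧
      ∃ X ∈ (univ : Finset V).powersetCard K, ∀ v ∈ supp A J \ X, (ρ v).1 = 0)).trans ?_)
  · refine fr_mono fun ρ hρ => ?_
    unfold P1 at hρ
    push Not at hρ
    obtain ⟨J, hJ, hs, hne⟩ := hρ
    obtain ⟨X, hX, -, hXd⟩ := Finset.exists_subsuperset_card_eq
      (Finset.subset_univ (univ.filter fun v => AJ A J v ≠ 0 ∧ v ∉ dom ρ)) hs
      (by simpa using hK)
    refine ⟨J, ?_, ⟨hne, hJ⟩, X, ?_, ?_⟩
    · simp only [Finset.mem_filter, Finset.mem_univ, true_and]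
      exact Finset.card_pos.mp (by omega)
    · rw [Finset.mem_powersetCard]
      exact ⟨Finset.subset_univ _, hXd⟩
    · intro v hv
      rw [Finset.mem_sdiff] at hv
      simp only [supp, Finset.mem_filter, Finset.mem_univ, true_and] at hv
      by_contra hcon
      apply hv.2
      apply hX
      simp only [Finset.mem_filter, Finset.mem_univ, true_and]
      exact ⟨hv.1, fun h => hcon (mem_dom.mp h)⟩
  · refine Finset.sum_le_sum fun J hJ => ?_
    by_cases hc : K < J.card ∧ J.card ≤ 2 * K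
    · refine le_trans (fr_mono fun ρ hρ => hρ.2) ((fr_exists_finset _ _).trans ?_)
      have h2 : ∀ X ∈ (univ : Finset V).powersetCard K,
          fr (fun ρ : V → Fin t × Bool => ∀ v ∈ supp A J \ X, (ρ v).1 = 0) ≤
            ((1 / (t : ℝ)) ^ 127) ^ J.card := by
        intro X hX
        rw [fr_sub_dom, ← pow_mul]
        apply one_div_pow_le
        have h3 := hexp J hc.2
        have h4 := (Finset.mem_powersetCard.mp hX).2
        have h5 := Finset.le_card_sdiff X (supp A J)
        omega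
      refine (Finset.sum_le_sum h2).trans ?_
      rw [Finset.sum_const, nsmul_eq_mul, Finset.card_powersetCard, Finset.card_univ, mul_pow]
      refine mul_le_mul_of_nonneg_right ?_ (by positivity)
      refine le_trans (by exact_mod_cast Nat.choose_le_pow _ _ : _ ≤ (Fintype.card V : ℝ) ^ K) ?_
      exact pow_le_pow_right₀ hV' (by omega)
    · have : fr (fun ρ : V → Fin t × Bool => (K < J.card ∧ J.card ≤ 2 * K) ∧
          ∃ X ∈ (univ : Finset V).powersetCard K, ∀ v ∈ supp A J \ X, (ρ v).1 = 0) = 0 := by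
        unfold fr
        simp [hc]
      rw [this]
      positivity

/-- a wide clause is hardly ever not satisfied -/
lemma res_wide {t : ℕ} [NeZero t] {w : ℕ} {C : Finset (V × Bool)}
    (hC : w < (C.image Prod.fst).card) :
    fr (fun ρ : V → Fin t × Bool => ¬ NS w (dom ρ) (fun v => (ρ v).2) C) ≤
      Real.exp (-(w / (2 * t))) := by
  classical
  have ht : (1 : ℝ) ≤ t := by exact_mod_cast NeZero.one_le
  have h1 : fr (fun ρ : V → Fin t × Bool => ¬ NS w (dom ρ) (fun v => (ρ v).2) C) ≤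
      fr (fun ρ : V → Fin t × Bool => ∀ v, v ∈ C.image Prod.fst →
        ¬ ((ρ v).1 = 0 ∧ (ρ v).2 = decide ((v, true) ∈ C))) := by
    refine fr_mono fun ρ hρ => ?_
    unfold NS at hρ
    push Not at hρ
    intro v hv hvv
    obtain ⟨l, hl, hlv⟩ := Finset.mem_image.mp hv
    have hmem : (v, decide ((v, true) ∈ C)) ∈ C := by
      by_cases hvt : (v, true) ∈ C
      · simpa [hvt] using hvt
      · obtain ⟨a, e⟩ := l
        simp only at hlv
        subst hlv
        cases e
        · simp [hvt, hl]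
        · exact absurd hl hvt
    exact hρ.2 _ hmem (mem_dom.mpr hvv.1) hvv.2
  refine h1.trans ?_
  rw [fr_pi (fun (v : V) (x : Fin t × Bool) => v ∈ C.image Prod.fst →
        ¬ (x.1 = 0 ∧ x.2 = decide ((v, true) ∈ C)))]
  have h2 : ∀ v ∈ C.image Prod.fst, fr (fun x : Fin t × Bool => v ∈ C.image Prod.fst →
        ¬ (x.1 = 0 ∧ x.2 = decide ((v, true) ∈ C))) = 1 - 1 / t / 2 := by
    intro v hv
    rw [← fr_zero_val t (decide ((v, true) ∈ C)), ← fr_not]
    exact fr_congr fun x => by simp only [hv, true_imp_iff]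
  have h3 : ∀ v ∉ C.image Prod.fst, fr (fun x : Fin t × Bool => v ∈ C.image Prod.fst →
        ¬ (x.1 = 0 ∧ x.2 = decide ((v, true) ∈ C))) = 1 := by
    intro v hv
    rw [← fr_true (Ω := Fin t × Bool)]
    exact fr_congr fun x => by simp only [hv, false_imp_iff]
  rw [← Finset.prod_subset (Finset.subset_univ (C.image Prod.fst)) (fun v _ hv => h3 v hv),
    Finset.prod_congr rfl h2, Finset.prod_const]
  have h4 : (1 : ℝ) / t / 2 ≤ 1 := by
    rw [div_div, div_le_one (by positivity)]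
    linarith
  refine (pow_le_exp_neg h4 _).trans ?_
  refine Real.exp_le_exp.mpr (neg_le_neg ?_)
  have h5 : (w : ℝ) ≤ ((C.image Prod.fst).card : ℝ) := by exact_mod_cast hC.le
  have h6 : (w : ℝ) / (2 * t) = w * (1 / t / 2) := by
    field_simp
  rw [h6]
  exact mul_le_mul_of_nonneg_right h5 (by positivity)

/-- there is a restriction with the closure property which does not hit the supports and satisfies
the wide clauses of a short list -/
theorem exists_restriction {t : ℕ} [NeZero t] [Fintype ι] {A : ι → V → ZMod 2} {K w : ℕ}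
    (hexp : ∀ J : Finset ι, J.card ≤ 2 * K → 128 * J.card ≤ (supp A J).card)
    (hK : K ≤ Fintype.card V) (hV : 1 ≤ Fintype.card V)
    (h : 8 * (Fintype.card ι * (Fintype.card V * (1 / (t : ℝ)) ^ 127)) ≤ 1)
    (L : List (Finset (V × Bool))) (hL : L.length * Real.exp (-(w / (2 * t))) < 1 / 2) :
    ∃ (D0 : Finset V) (x0 : V → Bool), P1 A K K D0 ∧
      (∀ J : Finset ι, J.card ≤ K → (∀ v, AJ A J v ≠ 0 → v ∈ D0) → J = ∅) ∧
      ∀ C ∈ L, NS w D0 x0 C := by
  classical
  have hV' : (1 : ℝ) ≤ Fintype.card V := by exact_mod_cast hV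
  have ht : (1 : ℝ) ≤ t := by exact_mod_cast NeZero.one_le
  have hι : (0 : ℝ) ≤ Fintype.card ι := Nat.cast_nonneg _
  have h128 : (1 / (t : ℝ)) ^ 128 ≤ Fintype.card V * (1 / (t : ℝ)) ^ 127 := by
    refine (one_div_pow_le (by norm_num : 127 ≤ 128)).trans ?_
    have : 0 ≤ (1 / (t : ℝ)) ^ 127 := by positivity
    nlinarith
  have h128' : Fintype.card ι * (1 / (t : ℝ)) ^ 128 ≤
      Fintype.card ι * (Fintype.card V * (1 / (t : ℝ)) ^ 127) :=
    mul_le_mul_of_nonneg_left h128 hι
  have hpos : 0 ≤ Fintype.card ι * (Fintype.card V * (1 / (t : ℝ)) ^ 127) := by positivity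
  have f1 := res_fail1 (t := t) hexp hK hV (by linarith)
  have f2 := res_fail2 (t := t) hexp (by linarith)
  have f3 : fr (fun ρ : V → Fin t × Bool => ∃ C ∈ L.toFinset,
      ¬ NS w (dom ρ) (fun v => (ρ v).2) C) ≤ L.length * Real.exp (-(w / (2 * t))) := by
    refine (fr_exists_finset _ _).trans ?_
    have : ∀ C ∈ L.toFinset, fr (fun ρ : V → Fin t × Bool =>
        ¬ NS w (dom ρ) (fun v => (ρ v).2) C) ≤ Real.exp (-(w / (2 * t))) := by
      intro C _
      by_cases hC : w < (C.image Prod.fst).card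
      · exact res_wide hC
      · have : fr (fun ρ : V → Fin t × Bool => ¬ NS w (dom ρ) (fun v => (ρ v).2) C) = 0 := by
          unfold fr
          have : ∀ ρ : V → Fin t × Bool, NS w (dom ρ) (fun v => (ρ v).2) C :=
            fun ρ => Or.inl (by omega)
          simp [this]
        rw [this]
        exact (Real.exp_pos _).le
    refine (Finset.sum_le_sum this).trans ?_
    rw [Finset.sum_const, nsmul_eq_mul]
    refine mul_le_mul_of_nonneg_right ?_ (Real.exp_pos _).le
    exact_mod_cast L.toFinset_card_le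
  have f : fr (fun ρ : V → Fin t × Bool => ¬ P1 A K K (dom ρ) ∨
      ((¬ ∀ J : Finset ι, J.card ≤ K → (∀ v, AJ A J v ≠ 0 → v ∈ dom ρ) → J = ∅) ∨
      ∃ C ∈ L.toFinset, ¬ NS w (dom ρ) (fun v => (ρ v).2) C)) < 1 := by
    refine (fr_or _ _).trans_lt ?_
    have g := fr_or (fun ρ : V → Fin t × Bool =>
      (¬ ∀ J : Finset ι, J.card ≤ K → (∀ v, AJ A J v ≠ 0 → v ∈ dom ρ) → J = ∅))
      (fun ρ => ∃ C ∈ L.toFinset, ¬ NS w (dom ρ) (fun v => (ρ v).2) C)
    linarith
  obtain ⟨ρ, hρ⟩ := exists_not_of_fr_lt f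
  push Not at hρ
  obtain ⟨g1, g2, g3⟩ := hρ
  refine ⟨dom ρ, fun v => (ρ v).2, g1, g2, fun C hC => ?_⟩
  exact g3 C (List.mem_toFinset.mpr hC)

end Pool.Agent.J4H24.PR
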