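import Pool.Agent.J4H24.PR.Sound
import Pool.Agent.J4H24.PR.Frac

/-!
# Rigid and expanding systems of linear equations modulo 2 exist
-/

namespace Pool.Agent.J4H24.PR

open Finset

set_option linter.unusedSectionVars false

variable {V ι : Type*} [Fintype V] [DecidableEq V] [DecidableEq ι]

/-- the equation whose left-hand side is the sum of the variables `r k` -/
def rowA {c : ℕ} (r : Fin c → V) (v : V) : ZMod 2 := ∑ k, if r k = v then 1 else 0

/-- the variables of the equations of `J` -/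
def nb {c : ℕ} (r : ι → Fin c → V) (J : Finset ι) : Finset V :=
  J.biUnion fun i => univ.image (r i)

/-- the support of the sum of the equations of `J` -/
def supp (A : ι → V → ZMod 2) (J : Finset ι) : Finset V := univ.filter fun v => AJ A J v ≠ 0

lemma two_card_nb {c : ℕ} (r : ι → Fin c → V) (J : Finset ι) :
    2 * (nb r J).card ≤ c * J.card + (supp (fun i => rowA (r i)) J).card := by
  classical
  set cnt : V → ℕ := fun v => ∑ i ∈ J, ∑ k, if r i k = v then 1 else 0 with hcnt
  have h1 : ∑ v, cnt v = c * J.card := by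
    simp only [hcnt]
    rw [Finset.sum_comm]
    have : ∀ i ∈ J, ∑ v, ∑ k, (if r i k = v then 1 else 0) = c := by
      intro i _
      rw [Finset.sum_comm]
      simp
    rw [Finset.sum_congr rfl this]
    simp [mul_comm]
  have h2 : ∀ v, AJ (fun i => rowA (r i)) J v = (cnt v : ZMod 2) := by
    intro v
    simp only [AJ, rowA, hcnt]
    push_cast
    rfl
  have h3 : ∀ v ∈ nb r J, 2 ≤ cnt v + if v ∈ supp (fun i => rowA (r i)) J then 1 else 0 := by
    intro v hv
    have hpos : 1 ≤ cnt v := by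
      simp only [nb, Finset.mem_biUnion, Finset.mem_image, Finset.mem_univ, true_and] at hv
      obtain ⟨i, hi, k, hk⟩ := hv
      have : 1 ≤ ∑ k, if r i k = v then 1 else 0 := by
        have := Finset.single_le_sum (f := fun k => if r i k = v then 1 else 0)
          (fun _ _ => Nat.zero_le _) (Finset.mem_univ k)
        simpa [hk] using this
      exact this.trans (Finset.single_le_sum (f := fun i => ∑ k, if r i k = v then 1 else 0)
        (fun _ _ => Nat.zero_le _) hi)
    by_cases hs : v ∈ supp (fun i => rowA (r i)) J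
    · simp only [hs, if_true]
      omega
    · simp only [hs, if_false, add_zero]
      by_contra hlt
      have hc1 : cnt v = 1 := by omega
      apply hs
      simp only [supp, Finset.mem_filter, Finset.mem_univ, true_and]
      rw [h2, hc1]
      decide
  calc 2 * (nb r J).card = ∑ v ∈ nb r J, 2 := by simp [mul_comm]
    _ ≤ ∑ v ∈ nb r J, (cnt v + if v ∈ supp (fun i => rowA (r i)) J then 1 else 0) :=
        Finset.sum_le_sum h3
    _ = ∑ v ∈ nb r J, cnt v + ∑ v ∈ nb r J,
          (if v ∈ supp (fun i => rowA (r i)) J then 1 else 0) := Finset.sum_add_distrib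
    _ ≤ ∑ v, cnt v + ∑ v, (if v ∈ supp (fun i => rowA (r i)) J then 1 else 0) :=
        Nat.add_le_add (Finset.sum_le_sum_of_subset (Finset.subset_univ _))
          (Finset.sum_le_sum_of_subset (Finset.subset_univ _))
    _ = _ := by rw [h1]; simp

lemma vars_rowA_card {c : ℕ} (r : ι → Fin c → V) (i : ι) :
    (vars (fun i => rowA (r i)) i).card ≤ c := by
  have : vars (fun i => rowA (r i)) i ⊆ univ.image (r i) := by
    intro v hv
    rw [mem_vars] at hv
    by_contra hcon
    apply hv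
    simp only [Finset.mem_image, Finset.mem_univ, true_and, not_exists] at hcon
    simp [rowA, hcon]
  refine (Finset.card_le_card this).trans (Finset.card_image_le.trans ?_)
  simp

lemma val_rowA {c : ℕ} (r : ι → Fin c → V) (i : ι) (y : V → Bool) :
    val (fun i => rowA (r i)) i y = ∑ k, bz (y (r i k)) := by
  unfold val rowA
  simp only [Finset.sum_mul, ite_mul, one_mul, zero_mul]
  rw [Finset.sum_comm]
  simp

lemma fr_mem (S : Finset V) : fr (fun v => v ∈ S) = (S.card : ℝ) / Fintype.card V := by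
  classical
  rw [fr_eq_card]
  congr 3
  ext v
  simp

lemma fr_notMem [Nonempty V] (S : Finset V) :
    fr (fun v => v ∉ S) = 1 - (S.card : ℝ) / Fintype.card V := by
  rw [fr_not, fr_mem]

lemma fr_eq (u : V) : fr (fun v => v = u) = 1 / Fintype.card V := by
  have := fr_mem ({u} : Finset V)
  simpa using this

/-- the fraction of the rows in which `u` occurs at the place `k0` and no element of `Q` at another
place -/
lemma fr_row1 [Nonempty V] {c : ℕ} (k0 : Fin c) (Q : Finset V) (u : V)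
    (hQ : 3 * Q.card ≤ 2 * Fintype.card V) :
    (1 / (Fintype.card V : ℝ)) * (1 / 3) ^ c ≤
      fr (fun r : Fin c → V => r k0 = u ∧ ∀ k, k ≠ k0 → r k ∉ Q) := by
  have hV : (0 : ℝ) < Fintype.card V := by exact_mod_cast Fintype.card_pos
  have h1 : fr (fun r : Fin c → V => r k0 = u ∧ ∀ k, k ≠ k0 → r k ∉ Q) =
      ∏ k, fr (fun v : V => (k = k0 → v = u) ∧ (k ≠ k0 → v ∉ Q)) := by
    rw [← fr_pi]
    refine fr_congr fun r => ?_
    constructor
    · rintro ⟨h1, h2⟩ k
      exact ⟨fun hk => by rw [hk]; exact h1, h2 k⟩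
    · intro h
      exact ⟨(h k0).1 rfl, fun k hk => (h k).2 hk⟩
  rw [h1, ← Finset.mul_prod_erase univ _ (mem_univ k0)]
  have h2 : fr (fun v : V => (k0 = k0 → v = u) ∧ (k0 ≠ k0 → v ∉ Q)) = 1 / Fintype.card V := by
    rw [← fr_eq u]
    exact fr_congr fun v => by simp
  rw [h2]
  refine mul_le_mul_of_nonneg_left ?_ (by positivity)
  have h3 : ∀ k ∈ univ.erase k0, (1 / 3 : ℝ) ≤
      fr (fun v : V => (k = k0 → v = u) ∧ (k ≠ k0 → v ∉ Q)) := by
    intro k hk
    have hk0 : k ≠ k0 := (Finset.mem_erase.mp hk).1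
    have : fr (fun v : V => (k = k0 → v = u) ∧ (k ≠ k0 → v ∉ Q)) = fr (fun v : V => v ∉ Q) :=
      fr_congr fun v => by simp [hk0]
    rw [this, fr_notMem]
    have h4 : (Q.card : ℝ) / Fintype.card V ≤ 2 / 3 := by
      rw [div_le_div_iff₀ hV (by norm_num)]
      have : ((3 * Q.card : ℕ) : ℝ) ≤ ((2 * Fintype.card V : ℕ) : ℝ) := by exact_mod_cast hQ
      push_cast at this
      linarith
    linarith
  calc (1 / 3 : ℝ) ^ c ≤ (1 / 3 : ℝ) ^ (univ.erase k0).card := by
        refine pow_le_pow_of_le_one (by norm_num) (by norm_num) ?_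
        refine (Finset.card_le_univ _).trans ?_
        simp
    _ = ∏ k ∈ univ.erase k0, (1 / 3 : ℝ) := by rw [Finset.prod_const]
    _ ≤ _ := Finset.prod_le_prod (fun _ _ => by norm_num) h3

/-- the fraction of the rows outside `Q` with a right-hand side violated by `y` -/
lemma fr_row2 [Nonempty V] {c : ℕ} (Q : Finset V) (y : V → Bool)
    (hQ : 3 * Q.card ≤ 2 * Fintype.card V) :
    (1 / 3 : ℝ) ^ c / 2 ≤
      fr (fun x : (Fin c → V) × Bool => (∀ k, x.1 k ∉ Q) ∧ ∑ k, bz (y (x.1 k)) ≠ bz x.2) := by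
  classical
  have hV : (0 : ℝ) < Fintype.card V := by exact_mod_cast Fintype.card_pos
  have h1 : fr (fun x : (Fin c → V) × Bool => (∀ k, x.1 k ∉ Q) ∧ ∑ k, bz (y (x.1 k)) ≠ bz x.2) =
      fr (fun x : (Fin c → V) × Bool => (∀ k, x.1 k ∉ Q) ∧
        x.2 = decide (∑ k, bz (y (x.1 k)) = 0)) := by
    refine fr_congr fun x => ?_
    refine and_congr_right fun _ => ?_
    rcases zmod2_cases (∑ k, bz (y (x.1 k))) with h | h <;> rw [h] <;> cases x.2 <;>
      simp [bz]
  rw [h1, fr_graph (fun r : Fin c → V => ∀ k, r k ∉ Q)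
    (fun r => decide (∑ k, bz (y (r k)) = 0))]
  refine div_le_div_of_nonneg_right ?_ (by norm_num)
  have h2 : fr (fun r : Fin c → V => ∀ k, r k ∉ Q) = ∏ k : Fin c, fr (fun v : V => v ∉ Q) := by
    rw [← fr_pi]
  rw [h2, Finset.prod_const, Finset.card_univ, Fintype.card_fin]
  refine pow_le_pow_left₀ (by norm_num) ?_ _
  rw [fr_notMem]
  have h4 : (Q.card : ℝ) / Fintype.card V ≤ 2 / 3 := by
    rw [div_le_div_iff₀ hV (by norm_num)]
    have : ((3 * Q.card : ℕ) : ℝ) ≤ ((2 * Fintype.card V : ℕ) : ℝ) := by exact_mod_cast hQ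
    push_cast at this
    linarith
  linarith

lemma pow_le_exp_neg {x : ℝ} (hx : x ≤ 1) (m : ℕ) : (1 - x) ^ m ≤ Real.exp (-(m * x)) := by
  have h1 : 1 - x ≤ Real.exp (-x) := by
    have := Real.add_one_le_exp (-x)
    linarith
  calc (1 - x) ^ m ≤ Real.exp (-x) ^ m := pow_le_pow_left₀ (by linarith) h1 m
    _ = Real.exp (-(m * x)) := by
        rw [← Real.exp_nat_mul]
        congr 1
        ring

/-- the type of the random rows -/
abbrev Row (V : Type*) (c : ℕ) := (Fin c → V) × Bool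

lemma fr_row_fst {c : ℕ} (p : (Fin c → V) → Prop) :
    fr (fun x : Row V c => p x.1) = fr p := fr_fst p

/-- failure of the first rigidity condition -/
lemma fr_fail1 [Nonempty V] [Fintype ι] {c : ℕ} (k0 : Fin c) (q : ℕ)
    (hq : 3 * q ≤ 2 * Fintype.card V) :
    fr (fun ω : ι → Row V c => ¬ H1 (fun i => rowA (ω i).1) q) ≤
      2 ^ Fintype.card V * Fintype.card V *
        Real.exp (-(Fintype.card ι * ((1 / (Fintype.card V : ℝ)) * (1 / 3) ^ c))) := by
  classical
  have hV : (0 : ℝ) < Fintype.card V := by exact_mod_cast Fintype.card_pos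
  have h1 : fr (fun ω : ι → Row V c => ¬ H1 (fun i => rowA (ω i).1) q) ≤
      fr (fun ω : ι → Row V c => ∃ p : Finset V × V, p.1.card ≤ q ∧
        ∀ i, ¬ ((ω i).1 k0 = p.2 ∧ ∀ k, k ≠ k0 → (ω i).1 k ∉ p.1)) := by
    refine fr_mono fun ω hω => ?_
    unfold H1 at hω
    push Not at hω
    obtain ⟨Q, hQ, u, hu, hno⟩ := hω
    refine ⟨(Q, u), hQ, fun i hi => ?_⟩
    obtain ⟨hi1, hi2⟩ := hi
    simp only at hi1 hi2
    have hcoef : rowA (ω i).1 u = 1 := by
      unfold rowA
      rw [← Finset.add_sum_erase univ _ (mem_univ k0), if_pos hi1, Finset.sum_eq_zero]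
      · simp
      · intro k hk
        rw [if_neg]
        intro h
        exact hi2 k (Finset.mem_erase.mp hk).1 (by rw [h]; exact hu)
    obtain ⟨v, hvQ, hv, hvu⟩ := hno i (by rw [hcoef]; decide)
    apply hv
    unfold rowA
    refine Finset.sum_eq_zero fun k _ => ?_
    rw [if_neg]
    intro h
    by_cases hk : k = k0
    · subst hk
      exact hvu (by rw [← h, hi1])
    · exact hi2 k hk (by rw [h]; exact hvQ)
  refine h1.trans ((fr_exists _).trans ?_)
  have h2 : ∀ p : Finset V × V, fr (fun ω : ι → Row V c => p.1.card ≤ q ∧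
      ∀ i, ¬ ((ω i).1 k0 = p.2 ∧ ∀ k, k ≠ k0 → (ω i).1 k ∉ p.1)) ≤
      Real.exp (-(Fintype.card ι * ((1 / (Fintype.card V : ℝ)) * (1 / 3) ^ c))) := by
    intro p
    by_cases hp : p.1.card ≤ q
    · have h3 : fr (fun ω : ι → Row V c => p.1.card ≤ q ∧
          ∀ i, ¬ ((ω i).1 k0 = p.2 ∧ ∀ k, k ≠ k0 → (ω i).1 k ∉ p.1)) =
          (1 - fr (fun r : Fin c → V => r k0 = p.2 ∧ ∀ k, k ≠ k0 → r k ∉ p.1)) ^
            Fintype.card ι := by
        rw [← fr_row_fst, ← fr_not, ← Finset.card_univ, ← Finset.prod_const, ← fr_pi]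
        exact fr_congr fun ω => by simp [hp]
      rw [h3]
      have h4 := fr_row1 k0 p.1 p.2 (by omega)
      have h5 : fr (fun r : Fin c → V => r k0 = p.2 ∧ ∀ k, k ≠ k0 → r k ∉ p.1) ≤ 1 :=
        fr_le_one _
      refine (pow_le_exp_neg h5 _).trans ?_
      refine Real.exp_le_exp.mpr (neg_le_neg ?_)
      exact mul_le_mul_of_nonneg_left h4 (Nat.cast_nonneg _)
    · have h3 : fr (fun ω : ι → Row V c => p.1.card ≤ q ∧
          ∀ i, ¬ ((ω i).1 k0 = p.2 ∧ ∀ k, k ≠ k0 → (ω i).1 k ∉ p.1)) = 0 := by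
        unfold fr
        simp [hp]
      rw [h3]
      exact (Real.exp_pos _).le
  refine (Finset.sum_le_sum fun p _ => h2 p).trans ?_
  rw [Finset.sum_const, Finset.card_univ, Fintype.card_prod, Fintype.card_finset, nsmul_eq_mul]
  push_cast
  exact le_rfl

/-- failure of the second rigidity condition -/
lemma fr_fail2 [Nonempty V] [Fintype ι] {c : ℕ} (q : ℕ)
    (hq : 3 * q ≤ 2 * Fintype.card V) :
    fr (fun ω : ι → Row V c => ¬ H2 (fun i => rowA (ω i).1) (fun i => bz (ω i).2) q) ≤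
      2 ^ Fintype.card V * 2 ^ Fintype.card V *
        Real.exp (-(Fintype.card ι * ((1 / 3) ^ c / 2))) := by
  classical
  have h1 : fr (fun ω : ι → Row V c =>
      ¬ H2 (fun i => rowA (ω i).1) (fun i => bz (ω i).2) q) ≤
      fr (fun ω : ι → Row V c => ∃ p : Finset V × (V → Bool), p.1.card ≤ q ∧
        ∀ i, ¬ ((∀ k, (ω i).1 k ∉ p.1) ∧ ∑ k, bz (p.2 ((ω i).1 k)) ≠ bz (ω i).2)) := by
    refine fr_mono fun ω hω => ?_
    unfold H2 at hω
    push Not at hω
    obtain ⟨Q, hQ, y, hno⟩ := hω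
    refine ⟨(Q, y), hQ, fun i hi => ?_⟩
    obtain ⟨hi1, hi2⟩ := hi
    simp only at hi1 hi2
    apply hi2
    rw [← val_rowA (fun i => (ω i).1) i y]
    refine hno i ?_
    intro v hv hvQ
    apply hv
    unfold rowA
    refine Finset.sum_eq_zero fun k _ => ?_
    rw [if_neg]
    intro h
    exact hi1 k (by rw [h]; exact hvQ)
  refine h1.trans ((fr_exists _).trans ?_)
  have h2 : ∀ p : Finset V × (V → Bool), fr (fun ω : ι → Row V c => p.1.card ≤ q ∧
      ∀ i, ¬ ((∀ k, (ω i).1 k ∉ p.1) ∧ ∑ k, bz (p.2 ((ω i).1 k)) ≠ bz (ω i).2)) ≤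
      Real.exp (-(Fintype.card ι * ((1 / 3) ^ c / 2))) := by
    intro p
    by_cases hp : p.1.card ≤ q
    · have h3 : fr (fun ω : ι → Row V c => p.1.card ≤ q ∧
          ∀ i, ¬ ((∀ k, (ω i).1 k ∉ p.1) ∧ ∑ k, bz (p.2 ((ω i).1 k)) ≠ bz (ω i).2)) =
          (1 - fr (fun x : Row V c => (∀ k, x.1 k ∉ p.1) ∧
            ∑ k, bz (p.2 (x.1 k)) ≠ bz x.2)) ^ Fintype.card ι := by
        rw [← fr_not, ← Finset.card_univ, ← Finset.prod_const, ← fr_pi]
        exact fr_congr fun ω => by simp [hp]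
      rw [h3]
      have h4 := fr_row2 (c := c) p.1 p.2 (by omega)
      have h5 : fr (fun x : Row V c => (∀ k, x.1 k ∉ p.1) ∧
            ∑ k, bz (p.2 (x.1 k)) ≠ bz x.2) ≤ 1 :=
        fr_le_one _
      refine (pow_le_exp_neg h5 _).trans ?_
      refine Real.exp_le_exp.mpr (neg_le_neg ?_)
      exact mul_le_mul_of_nonneg_left h4 (Nat.cast_nonneg _)
    · have h3 : fr (fun ω : ι → Row V c => p.1.card ≤ q ∧
          ∀ i, ¬ ((∀ k, (ω i).1 k ∉ p.1) ∧ ∑ k, bz (p.2 ((ω i).1 k)) ≠ bz (ω i).2)) = 0 := by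
        unfold fr
        simp [hp]
      rw [h3]
      exact (Real.exp_pos _).le
  refine (Finset.sum_le_sum fun p _ => h2 p).trans ?_
  rw [Finset.sum_const, Finset.card_univ, Fintype.card_prod, Fintype.card_finset,
    Fintype.card_fun, Fintype.card_bool, nsmul_eq_mul]
  push_cast
  exact le_rfl

/-- all the equations of `J` have their variables in a given set -/
lemma fr_inside [Nonempty V] [Fintype ι] {c : ℕ} (J : Finset ι) (X : Finset V) :
    fr (fun ω : ι → Row V c => ∀ i ∈ J, ∀ k, (ω i).1 k ∈ X) =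
      (((X.card : ℝ) / Fintype.card V) ^ c) ^ J.card := by
  have h1 := fr_pi_subset (ι := ι) (X := Row V c) J (fun x => ∀ k, x.1 k ∈ X)
  rw [h1]
  congr 1
  rw [fr_row_fst (c := c) (fun r => ∀ k, r k ∈ X)]
  have h2 : fr (fun r : Fin c → V => ∀ k, r k ∈ X) = ∏ k : Fin c, fr (fun v : V => v ∈ X) := by
    rw [← fr_pi]
  rw [h2, Finset.prod_const, Finset.card_univ, Fintype.card_fin, fr_mem]

/-- the sum of the sets of variables of the equations of `J` has at most `d` elements -/
lemma fr_small_nb [Nonempty V] [Fintype ι] {c : ℕ} (J : Finset ι) (d : ℕ)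
    (hd : d ≤ Fintype.card V) :
    fr (fun ω : ι → Row V c => (nb (fun i => (ω i).1) J).card ≤ d) ≤
      (Fintype.card V : ℝ) ^ d * (((d : ℝ) / Fintype.card V) ^ c) ^ J.card := by
  classical
  have h1 : fr (fun ω : ι → Row V c => (nb (fun i => (ω i).1) J).card ≤ d) ≤
      fr (fun ω : ι → Row V c => ∃ X ∈ (univ : Finset V).powersetCard d,
        ∀ i ∈ J, ∀ k, (ω i).1 k ∈ X) := by
    refine fr_mono fun ω hω => ?_
    obtain ⟨X, hX, -, hXd⟩ := Finset.exists_subsuperset_card_eq
      (Finset.subset_univ (nb (fun i => (ω i).1) J)) hω (by simpa using hd)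
    refine ⟨X, ?_, fun i hi k => hX ?_⟩
    · rw [Finset.mem_powersetCard]
      exact ⟨Finset.subset_univ _, hXd⟩
    · simp only [nb, Finset.mem_biUnion, Finset.mem_image, Finset.mem_univ, true_and]
      exact ⟨i, hi, k, rfl⟩
  refine h1.trans ((fr_exists_finset _ _).trans ?_)
  have h2 : ∀ X ∈ (univ : Finset V).powersetCard d,
      fr (fun ω : ι → Row V c => ∀ i ∈ J, ∀ k, (ω i).1 k ∈ X) ≤
        (((d : ℝ) / Fintype.card V) ^ c) ^ J.card := by
    intro X hX
    rw [fr_inside, (Finset.mem_powersetCard.mp hX).2]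
  refine (Finset.sum_le_sum h2).trans ?_
  rw [Finset.sum_const, nsmul_eq_mul, Finset.card_powersetCard, Finset.card_univ]
  refine mul_le_mul_of_nonneg_right ?_ (by positivity)
  exact_mod_cast Nat.choose_le_pow _ _

end Pool.Agent.J4H24.PR
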