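import Pool.Agent.J4H24.PR.Local

/-!
# Clauses derived by propagation redundancy from a rigid system of linear equations

If the system is rigid (`H1`, `H2`) and locally consistent under the restriction `(D0, x0)`, then all
narrow clauses derived from it are locally implied, as long as the restriction satisfies all wide
clauses.
-/

namespace Pool.Agent.J4H24.PR

open Finset

set_option linter.unusedSectionVars false

variable {V ι : Type*} [Fintype V] [DecidableEq V] [DecidableEq ι]
  {A : ι → V → ZMod 2} {b : ι → ZMod 2} {K s w : ℕ} {D0 : Finset V} {x0 : V → Bool}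

/-- all locally consistent extensions of the restriction which are defined on `C` satisfy `C` -/
def Good (A : ι → V → ZMod 2) (b : ι → ZMod 2) (K : ℕ) (D0 : Finset V) (x0 : V → Bool)
    (C : Finset (V × Bool)) : Prop :=
  ∀ (D : Finset V) (x : V → Bool), D0 ⊆ D → (∀ v ∈ D0, x v = x0 v) → LC A b K D x →
    (∀ l ∈ C, l.1 ∈ D) → ∃ l ∈ C, x l.1 = l.2

/-- narrow, or satisfied by the restriction -/
def NS (w : ℕ) (D0 : Finset V) (x0 : V → Bool) (C : Finset (V × Bool)) : Prop :=
  (C.image Prod.fst).card ≤ w ∨ ∃ l ∈ C, l.1 ∈ D0 ∧ x0 l.1 = l.2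

/-- all locally consistent extensions of `(D1, x1)` which are defined on `l` make `l` true -/
def Forced (A : ι → V → ZMod 2) (b : ι → ZMod 2) (K : ℕ) (D1 : Finset V) (x1 : V → Bool)
    (l : V × Bool) : Prop :=
  ∀ (D : Finset V) (x : V → Bool), D1 ⊆ D → (∀ v ∈ D1, x v = x1 v) → LC A b K D x →
    l.1 ∈ D → x l.1 = l.2

lemma up_forced (hP : P1 A K s D0) {Γ : Set (Finset (V × Bool))} {S : Set (V × Bool)}
    (hΓ : ∀ C ∈ Γ, Good A b K D0 x0 C ∧ NS w D0 x0 C) {D1 : Finset V} {x1 : V → Bool}
    (h01 : D0 ⊆ D1) (hx : ∀ v ∈ D0, x1 v = x0 v) (hs : (D1 \ D0).card + w ≤ s)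
    (hS : ∀ l ∈ S, l.1 ∈ D1 ∧ x1 l.1 = l.2) {l : V × Bool} (hl : UP Γ S l) :
    Forced A b K D1 x1 l := by
  induction hl with
  | init h =>
    intro D x hD hxx _ _
    obtain ⟨h1, h2⟩ := hS _ h
    rw [hxx _ h1, h2]
  | @unit C l hC hl _ ih =>
    intro D x hD hxx hLC hlD
    by_contra hne
    obtain ⟨hgood, hns⟩ := hΓ C hC
    rcases hns with hnar | ⟨lr, hlr, hlr0, hlr1⟩
    · -- narrow clause
      have hLC' : LC A b K (insert l.1 D1) x := hLC.mono (by
        intro u hu
        rcases Finset.mem_insert.mp hu with rfl | hu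
        · exact hlD
        · exact hD hu)
      obtain ⟨y, hy, hyx⟩ := hLC'.extend_many hP (C.image Prod.fst) (by
        have h1 : insert l.1 D1 \ D0 ⊆ insert l.1 (D1 \ D0) := by
          intro u hu
          simp only [Finset.mem_sdiff, Finset.mem_insert] at hu ⊢
          tauto
        have h2 := (Finset.card_le_card h1).trans (Finset.card_insert_le _ _)
        omega)
      obtain ⟨l', hl', hyl'⟩ := hgood _ y
        (h01.trans ((Finset.subset_insert _ _).trans Finset.subset_union_left))
        (by
          intro v hv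
          have hv1 : v ∈ insert l.1 D1 := Finset.mem_insert_of_mem (h01 hv)
          rw [hyx v hv1, hxx v (h01 hv), hx v hv]) hy
        (fun l' hl' => Finset.mem_union_right _ (Finset.mem_image_of_mem _ hl'))
      by_cases hll : l' = l
      · subst hll
        rw [hyx _ (Finset.mem_insert_self _ _)] at hyl'
        exact hne hyl'
      · have h3 := ih l' hl' hll (insert l.1 D1 ∪ C.image Prod.fst) y
          ((Finset.subset_insert _ _).trans Finset.subset_union_left)
          (fun v hv => by rw [hyx v (Finset.mem_insert_of_mem hv), hxx v hv]) hy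
          (Finset.mem_union_right _ (Finset.mem_image.mpr ⟨l', hl', rfl⟩))
        simp only [neg_fst, neg_snd] at h3
        rw [hyl'] at h3
        cases h4 : l'.2 <;> simp [h4] at h3
    · by_cases hll : lr = l
      · subst hll
        apply hne
        rw [hxx _ (h01 hlr0), hx _ hlr0, hlr1]
      · have h3 := ih lr hlr hll D x hD hxx hLC (hD (h01 hlr0))
        simp only [neg_fst, neg_snd] at h3
        rw [hxx _ (h01 hlr0), hx _ hlr0, hlr1] at h3
        cases h4 : lr.2 <;> simp [h4] at h3

lemma not_refutes (hP : P1 A K s D0) {Γ : Set (Finset (V × Bool))} {S : Set (V × Bool)}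
    (hΓ : ∀ C ∈ Γ, Good A b K D0 x0 C ∧ NS w D0 x0 C) {D1 : Finset V} {x1 : V → Bool}
    (h01 : D0 ⊆ D1) (hx : ∀ v ∈ D0, x1 v = x0 v) (hs : (D1 \ D0).card + w ≤ s)
    (hLC : LC A b K D1 x1) (hS : ∀ l ∈ S, l.1 ∈ D1 ∧ x1 l.1 = l.2) : ¬ Refutes Γ S := by
  rintro (⟨C, hC, hall⟩ | ⟨v, hv1, hv2⟩)
  · obtain ⟨hgood, hns⟩ := hΓ C hC
    have hF : ∀ l ∈ C, Forced A b K D1 x1 (neg l) := fun l hl =>
      up_forced hP hΓ h01 hx hs hS (hall l hl)
    rcases hns with hnar | ⟨lr, hlr, hlr0, hlr1⟩
    · obtain ⟨y, hy, hyx⟩ := hLC.extend_many hP (C.image Prod.fst) (by omega)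
      obtain ⟨l', hl', hyl'⟩ := hgood _ y (h01.trans Finset.subset_union_left)
        (fun v hv => by rw [hyx v (h01 hv), hx v hv]) hy
        (fun l' hl' => Finset.mem_union_right _ (Finset.mem_image_of_mem _ hl'))
      have h3 := hF l' hl' _ y Finset.subset_union_left hyx hy
        (Finset.mem_union_right _ (Finset.mem_image.mpr ⟨l', hl', rfl⟩))
      simp only [neg_fst, neg_snd] at h3
      rw [hyl'] at h3
      cases h4 : l'.2 <;> simp [h4] at h3
    · have h3 := hF lr hlr D1 x1 (le_refl _) (fun _ _ => rfl) hLC (h01 hlr0)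
      simp only [neg_fst, neg_snd] at h3
      rw [hx _ hlr0, hlr1] at h3
      cases h4 : lr.2 <;> simp [h4] at h3
  · have h1 := up_forced hP hΓ h01 hx hs hS hv1
    have h2 := up_forced hP hΓ h01 hx hs hS hv2
    by_cases hvD : v ∈ D1
    · have h3 := h1 D1 x1 (le_refl _) (fun _ _ => rfl) hLC hvD
      have h4 := h2 D1 x1 (le_refl _) (fun _ _ => rfl) hLC hvD
      simp only at h3 h4
      rw [h3] at h4
      exact absurd h4 (by decide)
    · obtain ⟨c, hc⟩ := hLC.extend hP (by omega) hvD
      have hag : ∀ u ∈ D1, Function.update x1 v c u = x1 u := by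
        intro u hu
        have : u ≠ v := by
          rintro rfl
          exact hvD hu
        rw [Function.update_of_ne this]
      have h3 := h1 _ _ (Finset.subset_insert _ _) hag hc (Finset.mem_insert_self _ _)
      have h4 := h2 _ _ (Finset.subset_insert _ _) hag hc (Finset.mem_insert_self _ _)
      simp only at h3 h4
      rw [h3] at h4
      exact absurd h4 (by decide)

/-- the variables of the equation `i` -/
def vars (A : ι → V → ZMod 2) (i : ι) : Finset V := univ.filter fun v => A i v ≠ 0

lemma mem_vars {i : ι} {v : V} : v ∈ vars A i ↔ A i v ≠ 0 := by simp [vars]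

/-- the value of the left-hand side of the equation `i` -/
def val (A : ι → V → ZMod 2) (i : ι) (x : V → Bool) : ZMod 2 := ∑ v, A i v * bz (x v)

/-- the clause which excludes the values of `θ` on the variables of the equation `i` -/
def cl (A : ι → V → ZMod 2) (i : ι) (θ : V → Bool) : Finset (V × Bool) :=
  (vars A i).image fun v => (v, !θ v)

/-- the clauses of the system `A x = b` -/
def sys (A : ι → V → ZMod 2) (b : ι → ZMod 2) : Set (Finset (V × Bool)) :=
  {D | ∃ i θ, val A i θ ≠ b i ∧ D = cl A i θ}

lemma T_singleton (A : ι → V → ZMod 2) (i : ι) (x : V → Bool) : T A {i} x = val A i x := by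
  simp [T, val, AJ]

lemma LC.sat (hK : 1 ≤ K) {D : Finset V} {x : V → Bool} (h : LC A b K D x) (i : ι)
    (hi : vars A i ⊆ D) : val A i x = b i := by
  rw [← T_singleton]
  have := h {i} (by simpa using hK) (fun v hv => hi (by rw [mem_vars]; simpa [AJ] using hv))
  simpa using this

lemma sys_good (hK : 1 ≤ K) {C : Finset (V × Bool)} (hC : C ∈ sys A b) :
    Good A b K D0 x0 C := by
  obtain ⟨i, θ, hne, rfl⟩ := hC
  intro D x _ _ hLC hD
  by_contra hcon
  push Not at hcon
  apply hne
  have hsub : vars A i ⊆ D := fun v hv => hD (v, !θ v) (Finset.mem_image_of_mem _ hv)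
  rw [← hLC.sat hK i hsub]
  unfold val
  refine Finset.sum_congr rfl fun v _ => ?_
  by_cases hv : A i v = 0
  · rw [hv, zero_mul, zero_mul]
  · have h1 := hcon (v, !θ v) (Finset.mem_image_of_mem _ (mem_vars.mpr hv))
    simp only [ne_eq] at h1
    have h2 : x v = θ v := by
      cases h3 : x v <;> cases h4 : θ v <;> simp [h3, h4] at h1 ⊢
    rw [h2]

/-- rigidity, first part: every element of a set of at most `q` variables is the only element of the
set in some equation -/
def H1 (A : ι → V → ZMod 2) (q : ℕ) : Prop :=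
  ∀ Q : Finset V, Q.card ≤ q → ∀ u ∈ Q, ∃ i, A i u ≠ 0 ∧ ∀ v ∈ Q, A i v ≠ 0 → v = u

/-- rigidity, second part: every total assignment violates some equation that avoids a given set of
at most `q` variables -/
def H2 (A : ι → V → ZMod 2) (b : ι → ZMod 2) (q : ℕ) : Prop :=
  ∀ Q : Finset V, Q.card ≤ q → ∀ y : V → Bool, ∃ i, (∀ v, A i v ≠ 0 → v ∉ Q) ∧ val A i y ≠ b i

lemma val_update (A : ι → V → ZMod 2) (i : ι) (x : V → Bool) (u : V) (hu : A i u ≠ 0) (c : Bool)
    (hc : x u ≠ c) : val A i (Function.update x u c) = val A i x + 1 := by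
  have h1 : A i u = 1 := (zmod2_cases _).resolve_left hu
  unfold val
  rw [← Finset.add_sum_erase univ _ (mem_univ u),
    ← Finset.add_sum_erase univ (fun v => A i v * bz (x v)) (mem_univ u)]
  have h : ∑ v ∈ univ.erase u, A i v * bz (Function.update x u c v) =
      ∑ v ∈ univ.erase u, A i v * bz (x v) := by
    refine Finset.sum_congr rfl fun v hv => ?_
    rw [Function.update_of_ne (Finset.mem_erase.mp hv).1]
  rw [h, Function.update_self, h1, one_mul, one_mul]
  have h2 : bz c = bz (x u) + 1 := bz_ne (Ne.symm hc)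
  rw [h2]
  ring

lemma step_good {q a : ℕ} (hP : P1 A K s D0) (hK : 1 ≤ K) (hw : 2 * w + a ≤ s)
    (hq : Fintype.card V ≤ 2 * q) (ha : ∀ i, (vars A i).card ≤ a) (h1 : H1 A q) (h2 : H2 A b q)
    {Γ : Set (Finset (V × Bool))} (hsys : sys A b ⊆ Γ)
    (hΓ : ∀ C ∈ Γ, Good A b K D0 x0 C ∧ NS w D0 x0 C) {C : Finset (V × Bool)}
    (hC : NS w D0 x0 C) (hder : RUP Γ C ∨ PRed Γ C) : Good A b K D0 x0 C := by
  rcases hC with hnar | ⟨lr, hlr, hlr0, hlr1⟩
  swap
  · intro D x hD hxx _ _
    exact ⟨lr, hlr, by rw [hxx _ hlr0, hlr1]⟩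
  intro D x hD hxx hLC hlD
  by_contra hcon
  push Not at hcon
  -- restrict to the domain of the restriction and the variables of `C`
  set D1 := D0 ∪ C.image Prod.fst with hD1
  have hD1D : D1 ⊆ D := by
    intro u hu
    rcases Finset.mem_union.mp hu with hu | hu
    · exact hD hu
    · obtain ⟨l, hl, rfl⟩ := Finset.mem_image.mp hu
      exact hlD l hl
  have hLC1 : LC A b K D1 x := hLC.mono hD1D
  have hc1 : (D1 \ D0).card ≤ w := by
    refine (Finset.card_le_card ?_).trans hnar
    intro u hu
    simp only [hD1, Finset.mem_sdiff, Finset.mem_union] at hu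
    tauto
  have hα : ∀ l : V × Bool, neg l ∈ C → l.1 ∈ D1 ∧ x l.1 = l.2 := by
    intro l hl
    refine ⟨Finset.mem_union_right _ (Finset.mem_image.mpr ⟨neg l, hl, rfl⟩), ?_⟩
    have := hcon _ hl
    simp only [neg_fst, neg_snd, ne_eq] at this
    cases h3 : x l.1 <;> cases h4 : l.2 <;> simp [h3, h4] at this ⊢
  rcases hder with hrup | ⟨τ, ⟨l0, hl0, hτ⟩, hall⟩
  · exact not_refutes hP hΓ (D1 := D1) (x1 := x) Finset.subset_union_left hxx (by omega) hLC1
      (fun l hl => hα l hl) hrup
  · -- propagation redundancy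
    have hu0 : x l0.1 ≠ l0.2 := hcon l0 hl0
    set R : Finset V := univ.filter fun v => τ v ≠ none with hR
    have hcardR : R.card + (univ \ R).card = Fintype.card V := by
      rw [Finset.card_sdiff_of_subset (Finset.subset_univ _), Finset.card_univ]
      have := Finset.card_le_univ R
      omega
    by_cases hRq : R.card ≤ q
    · -- few variables are assigned by `τ`
      have hu : l0.1 ∈ R := by simp [hR, hτ]
      obtain ⟨i, hi, hiR⟩ := h1 R hRq l0.1 hu
      obtain ⟨y, hy, hyx⟩ := hLC1.extend_many hP (vars A i) (by have := ha i; omega)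
      set θ := Function.update y l0.1 l0.2 with hθ
      have hyu : y l0.1 = x l0.1 :=
        hyx _ (Finset.mem_union_right _ (Finset.mem_image_of_mem _ hl0))
      have hval : val A i θ ≠ b i := by
        rw [hθ, val_update A i y l0.1 hi l0.2 (by rw [hyu]; exact hu0),
          hy.sat hK i Finset.subset_union_right]
        have : ∀ p : ZMod 2, p + 1 ≠ p := by decide
        exact this _
      have hD : cl A i θ ∈ Γ := hsys ⟨i, θ, hval, rfl⟩
      have hlit : ∀ l ∈ cl A i θ, τ l.1 ≠ some l.2 := by
        intro l hl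
        obtain ⟨v, hv, rfl⟩ := Finset.mem_image.mp hl
        by_cases hvu : v = l0.1
        · subst hvu
          simp only [hθ, Function.update_self, hτ, ne_eq, Option.some.injEq]
          cases l0.2 <;> simp
        · intro h
          have hvR : v ∈ R := by simp [hR, h]
          exact hvu (hiR v hvR (mem_vars.mp hv))
      refine not_refutes hP hΓ (D1 := D1 ∪ vars A i) (x1 := y)
        (Finset.subset_union_left.trans Finset.subset_union_left) ?_ ?_ hy ?_ (hall _ hD hlit)
      · intro v hv
        rw [hyx v (Finset.mem_union_left _ hv), hxx v hv]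
      · have h3 : (D1 ∪ vars A i) \ D0 ⊆ (D1 \ D0) ∪ vars A i := by
          intro u hu
          simp only [Finset.mem_sdiff, Finset.mem_union] at hu ⊢
          tauto
        have h4 := (Finset.card_le_card h3).trans (Finset.card_union_le _ _)
        have := ha i
        omega
      · rintro l (hl | ⟨hl, hln⟩)
        · obtain ⟨h5, h6⟩ := hα l hl
          exact ⟨Finset.mem_union_left _ h5, by rw [hyx _ h5, h6]⟩
        · obtain ⟨v, hv, hvl⟩ := Finset.mem_image.mp hl
          have h7 : l.1 = v := by rw [← neg_fst, ← hvl]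
          have h8 : l.2 = θ v := by
            have : (neg l).2 = !θ v := by rw [← hvl]
            simpa using this
          refine ⟨Finset.mem_union_right _ (by rw [h7]; exact hv), ?_⟩
          have h9 : l.1 ≠ l0.1 := by
            intro h
            rw [h, hτ] at hln
            exact absurd hln (by simp)
          rw [h8, ← h7, hθ, Function.update_of_ne h9]
    · -- few variables are not assigned by `τ`
      set y : V → Bool := fun v => (τ v).getD false with hy
      obtain ⟨i, hi, hval⟩ := h2 (univ \ R) (by omega) y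
      have hD : cl A i y ∈ Γ := hsys ⟨i, y, hval, rfl⟩
      have hin : ∀ v ∈ vars A i, τ v = some (y v) := by
        intro v hv
        have h3 := hi v (mem_vars.mp hv)
        simp only [hR, Finset.mem_sdiff, Finset.mem_univ, true_and, Finset.mem_filter, ne_eq,
          not_not] at h3
        obtain ⟨c, hc⟩ := Option.ne_none_iff_exists'.mp h3
        simp [hy, hc]
      have hlit : ∀ l ∈ cl A i y, τ l.1 ≠ some l.2 := by
        intro l hl
        obtain ⟨v, hv, rfl⟩ := Finset.mem_image.mp hl
        simp only [hin v hv, ne_eq, Option.some.injEq]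
        cases y v <;> simp
      refine not_refutes hP hΓ (D1 := D1) (x1 := x) Finset.subset_union_left hxx (by omega) hLC1 ?_
        (hall _ hD hlit)
      rintro l (hl | ⟨hl, hln⟩)
      · exact hα l hl
      · obtain ⟨v, hv, hvl⟩ := Finset.mem_image.mp hl
        have h7 : l.1 = v := by rw [← neg_fst, ← hvl]
        rw [h7, hin v hv] at hln
        exact absurd hln (by simp)

/-- All clauses of a derivation are locally implied, if the restriction satisfies the wide ones. -/
theorem derivation_good {q a : ℕ} (hP : P1 A K s D0) (hK : 1 ≤ K) (hw : 2 * w + a ≤ s)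
    (haw : a ≤ w) (hq : Fintype.card V ≤ 2 * q) (ha : ∀ i, (vars A i).card ≤ a) (h1 : H1 A q)
    (h2 : H2 A b q) {L : List (Finset (V × Bool))} (hL : Derivation (sys A b) L)
    (hns : ∀ C ∈ L, NS w D0 x0 C) : ∀ C ∈ L, Good A b K D0 x0 C := by
  induction hL with
  | nil => intro C hC; simp at hC
  | @cons C L hL hC ih =>
    intro C' hC'
    rcases List.mem_cons.mp hC' with rfl | hC'
    · refine step_good hP hK hw hq ha h1 h2 (Γ := {D | D ∈ sys A b ∨ D ∈ L})
        (fun D hD => Or.inl hD) ?_ (hns _ (by simp)) hC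
      rintro D (hD | hD)
      · refine ⟨sys_good hK hD, Or.inl ?_⟩
        obtain ⟨i, θ, -, rfl⟩ := hD
        refine le_trans ?_ haw
        refine le_trans ?_ (ha i)
        unfold cl
        rw [Finset.image_image]
        refine Finset.card_image_le
      · exact ⟨ih (fun C hC => hns C (List.mem_cons_of_mem _ hC)) D hD,
          hns D (List.mem_cons_of_mem _ hD)⟩
    · exact ih (fun C hC => hns C (List.mem_cons_of_mem _ hC)) C' hC'

/-- A refutation contains a wide clause which is not satisfied by the restriction. -/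
theorem exists_wide {q a : ℕ} (hP : P1 A K s D0) (hK : 1 ≤ K) (hw : 2 * w + a ≤ s)
    (haw : a ≤ w) (hq : Fintype.card V ≤ 2 * q) (ha : ∀ i, (vars A i).card ≤ a) (h1 : H1 A q)
    (h2 : H2 A b q) (hP2 : ∀ J : Finset ι, J.card ≤ K → (∀ v, AJ A J v ≠ 0 → v ∈ D0) → J = ∅)
    {L : List (Finset (V × Bool))} (hL : Derivation (sys A b) L) (he : ∅ ∈ L) :
    ∃ C ∈ L, ¬ NS w D0 x0 C := by
  by_contra hcon
  push Not at hcon
  have hg := derivation_good hP hK hw haw hq ha h1 h2 hL hcon ∅ he
  obtain ⟨l, hl, -⟩ := hg D0 x0 (le_refl _) (fun _ _ => rfl) (by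
    intro J hJ hs
    rw [hP2 J hJ hs]
    simp [T, AJ]) (by simp)
  simp at hl

end Pool.Agent.J4H24.PR
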